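import Pool.Agent.Q174.LU.Plq

/-! # Project LU (helper77), job LOCV, derivatives of the trial exponent (helper174) -/

set_option autoImplicit false

namespace Pool.Agent.Q174.LU

open Matrix Set Filter Topology
open scoped ContDiff Matrix.Norms.Frobenius
open Pool.Agent.Q77.LU

/-- real linear functional -/
noncomputable def trL {N : ℕ} (C C' : Mt N) : Mt N →L[ℝ] ℝ :=
  LinearMap.toContinuousLinearMap
    { toFun := fun M => (trace (C * (M * C'))).re
      map_add' := fun M M' => by rw [add_mul, mul_add, trace_add, Complex.add_re]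
      map_smul' := fun c M => by
        rw [smul_mul_assoc, mul_smul_comm, trace_smul, RingHom.id_apply]
        simp }

theorem trL_apply {N : ℕ} (C C' M : Mt N) : trL C C' M = (trace (C * (M * C'))).re := rfl

section
variable {N n D l : ℕ} {G : Subgroup (UU N)}

/-- linear functionals of `U_e V_e^{-1}` -/
noncomputable def ell (V : Link D l → G) (C : Mt N) (e : Link D l) (U : Link D l → G) : ℝ :=
  (trace (C * (mt (U e) * (mt (V e))ᴴ))).re

theorem yy_eq (B : LieBasis G n) (V U : Link D l → G) (k : Link D l × Fin n) :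
    yy B V U k = ell V (B.X k.2)ᴴ k.1 U - (trace ((B.X k.2)ᴴ)).re := by
  unfold yy crd ell
  rw [mul_sub, trace_sub, Complex.sub_re, mul_one]

theorem skew (B : LieBasis G n) (a : Fin n) : (B.X a)ᴴ = -B.X a := by
  have h1 := hasDerivAt_exp B a
  have h2 : HasDerivAt (fun t => (mt (B.ex a t))ᴴ) ((B.X a)ᴴ) 0 :=
    (ctL N).hasFDerivAt.comp_hasDerivAt (0 : ℝ) h1
  have h3 : HasDerivAt (fun t => (mt (B.ex a t))ᴴ * mt (B.ex a t))
      ((B.X a)ᴴ * mt (B.ex a 0) + (mt (B.ex a 0))ᴴ * B.X a) 0 := h2.mul h1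
  have h4 : (fun t => (mt (B.ex a t))ᴴ * mt (B.ex a t)) = fun _ => (1 : Mt N) := by
    funext t; exact mt_unit _
  rw [h4, ex_zero, mt_one, conjTranspose_one, mul_one, one_mul] at h3
  have h5 : HasDerivAt (fun _ : ℝ => (1 : Mt N)) 0 0 := hasDerivAt_const _ _
  have h6 := h3.unique h5
  exact eq_neg_of_add_eq_zero_left h6

theorem norm_X (B : LieBasis G n) (a : Fin n) : ‖B.X a‖ = 1 := by
  have := norm_sq (B.X a)
  rw [B.orth, if_pos rfl] at this
  have h0 := norm_nonneg (B.X a)
  nlinarith

/-- the curve -/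
noncomputable def cur (B : LieBasis G n) (e : Link D l) (a : Fin n) (U : Link D l → G) (t : ℝ) :
    Link D l → G := Function.update U e (B.ex a t * U e)

theorem cur_zero (B : LieBasis G n) (e : Link D l) (a : Fin n) (U : Link D l → G) :
    cur B e a U 0 = U := by
  unfold cur
  rw [ex_zero, one_mul, Function.update_eq_self]

theorem hasDerivAt_ell (B : LieBasis G n) (V : Link D l → G) (C : Mt N) (e' e : Link D l)
    (a : Fin n) (U : Link D l → G) :
    HasDerivAt (fun t => ell V C e' (cur B e a U t))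
      (if e' = e then ell V (C * B.X a) e' U else 0) 0 := by
  have h1 := (hasDerivAt_pi.1 (hasDerivAt_mU B U e a)) e'
  have h2 : HasDerivAt (fun t => ell V C e' (cur B e a U t))
      (trL C (mt (V e'))ᴴ (dir B U (e, a) e')) 0 :=
    (trL C (mt (V e'))ᴴ).hasFDerivAt.comp_hasDerivAt (0 : ℝ) h1
  have h3 : trL C (mt (V e'))ᴴ (dir B U (e, a) e') =
      if e' = e then ell V (C * B.X a) e' U else 0 := by
    rw [trL_apply]
    unfold dir
    split_ifs with h
    · subst h
      rw [Pi.single_eq_same]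
      unfold ell
      simp only [mul_assoc]
    · rw [Pi.single_eq_of_ne h]
      simp
  rwa [h3] at h2

theorem hasDerivAt_yy (B : LieBasis G n) (V : Link D l → G) (k : Link D l × Fin n)
    (e : Link D l) (a : Fin n) (U : Link D l → G) :
    HasDerivAt (fun t => yy B V (cur B e a U t) k)
      (if k.1 = e then ell V ((B.X k.2)ᴴ * B.X a) k.1 U else 0) 0 := by
  simp only [yy_eq]
  exact (hasDerivAt_ell B V _ k.1 e a U).sub_const _

variable [NeZero l]

/-- `A y + c` -/
noncomputable def zet (B : LieBasis G n) (V : Link D l → G)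
    (A : Matrix (Link D l × Fin n) (Link D l × Fin n) ℝ) (c : Link D l × Fin n → ℝ)
    (U : Link D l → G) (k : Link D l × Fin n) : ℝ := (A *ᵥ yy B V U) k + c k

/-- the exponent -/
noncomputable def hh (B : LieBasis G n) (V : Link D l → G)
    (A : Matrix (Link D l × Fin n) (Link D l × Fin n) ℝ) (c : Link D l × Fin n → ℝ) (s : ℝ)
    (U : Link D l → G) : ℝ :=
  s * (1 / 2 * (∑ k, ∑ m, A k m * (yy B V U k * yy B V U m)) + ∑ k, c k * yy B V U k)

theorem sum_link {f : Link D l × Fin n → ℝ} (e : Link D l) :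
    (∑ k, if k.1 = e then f k else 0) = ∑ b, f (e, b) := by
  rw [Fintype.sum_prod_type, Finset.sum_eq_single e]
  · simp
  · intro e' _ he'
    simp [he']
  · intro h; exact absurd (Finset.mem_univ _) h

theorem hasDerivAt_zet (B : LieBasis G n) (V : Link D l → G)
    (A : Matrix (Link D l × Fin n) (Link D l × Fin n) ℝ) (c : Link D l × Fin n → ℝ)
    (k : Link D l × Fin n) (e : Link D l) (a : Fin n) (U : Link D l → G) :
    HasDerivAt (fun t => zet B V A c (cur B e a U t) k)
      (∑ b, A k (e, b) * ell V ((B.X b)ᴴ * B.X a) e U) 0 := by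
  have h1 : HasDerivAt (fun t => ∑ m, A k m * yy B V (cur B e a U t) m)
      (∑ m : Link D l × Fin n,
        A k m * (if m.1 = e then ell V ((B.X m.2)ᴴ * B.X a) m.1 U else 0)) 0 :=
    HasDerivAt.fun_sum fun m _ => (hasDerivAt_yy B V m e a U).const_mul _
  have h2 := h1.add_const (c k)
  have h3 : (∑ m : Link D l × Fin n,
      A k m * (if m.1 = e then ell V ((B.X m.2)ᴴ * B.X a) m.1 U else 0)) =
      ∑ b, A k (e, b) * ell V ((B.X b)ᴴ * B.X a) e U := by
    rw [← sum_link (f := fun m => A k m * ell V ((B.X m.2)ᴴ * B.X a) m.1 U) e]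
    refine Finset.sum_congr rfl fun m _ => ?_
    split_ifs <;> simp
  rw [h3] at h2
  exact h2

theorem hasDerivAt_hh (B : LieBasis G n) (V : Link D l → G)
    (A : Matrix (Link D l × Fin n) (Link D l × Fin n) ℝ) (hA : ∀ k m, A k m = A m k)
    (c : Link D l × Fin n → ℝ) (s : ℝ) (e : Link D l) (a : Fin n) (U : Link D l → G) :
    HasDerivAt (fun t => hh B V A c s (cur B e a U t))
      (s * ∑ b, zet B V A c U (e, b) * ell V ((B.X b)ᴴ * B.X a) e U) 0 := by
  set dy : Link D l × Fin n → ℝ := fun k =>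
    if k.1 = e then ell V ((B.X k.2)ᴴ * B.X a) k.1 U else 0 with hdy
  have hy : ∀ k, HasDerivAt (fun t => yy B V (cur B e a U t) k) (dy k) 0 :=
    fun k => hasDerivAt_yy B V k e a U
  have h1 : HasDerivAt (fun t => ∑ k, ∑ m, A k m * (yy B V (cur B e a U t) k *
      yy B V (cur B e a U t) m))
      (∑ k, ∑ m, A k m * (dy k * yy B V U m + yy B V U k * dy m)) 0 := by
    refine HasDerivAt.fun_sum fun k _ => HasDerivAt.fun_sum fun m _ => ?_
    have h := ((hy k).mul (hy m)).const_mul (A k m)
    simp only [cur_zero] at h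
    exact h
  have h2 : HasDerivAt (fun t => ∑ k, c k * yy B V (cur B e a U t) k) (∑ k, c k * dy k) 0 :=
    HasDerivAt.fun_sum fun k _ => (hy k).const_mul _
  have h3 := ((h1.const_mul (1 / 2)).add h2).const_mul s
  have h4 : 1 / 2 * (∑ k, ∑ m, A k m * (dy k * yy B V U m + yy B V U k * dy m)) +
      ∑ k, c k * dy k = ∑ b, zet B V A c U (e, b) * ell V ((B.X b)ᴴ * B.X a) e U := by
    have h5 : ∑ k, ∑ m, A k m * (dy k * yy B V U m + yy B V U k * dy m) =
        2 * ∑ k, (A *ᵥ yy B V U) k * dy k := by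
      have e1 : ∑ k, ∑ m, A k m * (dy k * yy B V U m + yy B V U k * dy m) =
          ∑ k, ∑ m, A k m * yy B V U m * dy k + ∑ k, ∑ m, A k m * yy B V U k * dy m := by
        rw [← Finset.sum_add_distrib]
        refine Finset.sum_congr rfl fun k _ => ?_
        rw [← Finset.sum_add_distrib]
        refine Finset.sum_congr rfl fun m _ => ?_
        ring
      have e2 : ∑ k, ∑ m, A k m * yy B V U k * dy m =
          ∑ k, ∑ m, A k m * yy B V U m * dy k := by
        rw [Finset.sum_comm]
        refine Finset.sum_congr rfl fun k _ => Finset.sum_congr rfl fun m _ => ?_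
        rw [hA m k]
      have e3 : ∑ k, ∑ m, A k m * yy B V U m * dy k = ∑ k, (A *ᵥ yy B V U) k * dy k := by
        refine Finset.sum_congr rfl fun k _ => ?_
        unfold mulVec dotProduct
        rw [Finset.sum_mul]
      rw [e1, e2, e3]; ring
    rw [h5, ← sum_link (f := fun k => zet B V A c U k * ell V ((B.X k.2)ᴴ * B.X a) k.1 U) e]
    have h6 : ∀ k : Link D l × Fin n,
        (if k.1 = e then zet B V A c U k * ell V ((B.X k.2)ᴴ * B.X a) k.1 U else 0) =
        (A *ᵥ yy B V U) k * dy k + c k * dy k := by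
      intro k
      simp only [hdy]
      unfold zet
      split_ifs
      · ring
      · ring
    simp only [h6]
    rw [Finset.sum_add_distrib]
    ring
  rw [h4] at h3
  exact h3

theorem dlink_hh (B : LieBasis G n) (V : Link D l → G)
    (A : Matrix (Link D l × Fin n) (Link D l × Fin n) ℝ) (hA : ∀ k m, A k m = A m k)
    (c : Link D l × Fin n → ℝ) (s : ℝ) (e : Link D l) (a : Fin n) :
    dlink B e a (hh B V A c s) = fun U =>
      s * ∑ b, zet B V A c U (e, b) * ell V ((B.X b)ᴴ * B.X a) e U := by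
  funext U
  exact (hasDerivAt_hh B V A hA c s e a U).deriv

theorem dlink2_hh (B : LieBasis G n) (V : Link D l → G)
    (A : Matrix (Link D l × Fin n) (Link D l × Fin n) ℝ) (hA : ∀ k m, A k m = A m k)
    (c : Link D l × Fin n → ℝ) (s : ℝ) (e : Link D l) (a : Fin n) (U : Link D l → G) :
    dlink B e a (dlink B e a (hh B V A c s)) U =
      s * ∑ b, ((∑ b', A (e, b) (e, b') * ell V ((B.X b')ᴴ * B.X a) e U) *
        ell V ((B.X b)ᴴ * B.X a) e U +
        zet B V A c U (e, b) * ell V ((B.X b)ᴴ * B.X a * B.X a) e U) := by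
  rw [dlink_hh B V A hA]
  have h1 : HasDerivAt (fun t => s * ∑ b, zet B V A c (cur B e a U t) (e, b) *
      ell V ((B.X b)ᴴ * B.X a) e (cur B e a U t))
      (s * ∑ b, ((∑ b', A (e, b) (e, b') * ell V ((B.X b')ᴴ * B.X a) e U) *
        ell V ((B.X b)ᴴ * B.X a) e U +
        zet B V A c U (e, b) * ell V ((B.X b)ᴴ * B.X a * B.X a) e U)) 0 := by
    refine (HasDerivAt.fun_sum fun b _ => ?_).const_mul s
    have h := (hasDerivAt_zet B V A c (e, b) e a U).mul
      (hasDerivAt_ell B V ((B.X b)ᴴ * B.X a) e e a U)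
    simp only [cur_zero, if_true] at h
    exact h
  exact h1.deriv

end

end Pool.Agent.Q174.LU
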