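import Pool.Agent.Q174.LU.Pt

/-! # Project LU (helper77), job LOCV (helper174) -/

set_option autoImplicit false

namespace Pool.Agent.Q174.LU

open MeasureTheory Matrix Set Filter Topology
open scoped ContDiff Matrix.Norms.Frobenius
open Pool.Agent.Q77.LU

section
variable {N n D l : ℕ} {G : Subgroup (UU N)}

theorem cont_mt : Continuous (mt : G → Mt N) :=
  continuous_subtype_val.comp continuous_subtype_val

theorem cont_mU : Continuous (mU : (Link D l → G) → (Link D l → Mt N)) :=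
  continuous_pi fun e => cont_mt.comp (continuous_apply e)

theorem cont_ell (V : Link D l → G) (C : Mt N) (e : Link D l) : Continuous (ell V C e) := by
  have h : ell V C e = fun U => trL C (mt (V e))ᴴ (mt (U e)) := rfl
  rw [h]
  exact (trL C (mt (V e))ᴴ).continuous.comp (cont_mt.comp (continuous_apply e))

theorem cont_yy (B : LieBasis G n) (V : Link D l → G) (k : Link D l × Fin n) :
    Continuous (fun U => yy B V U k) := by
  simp only [yy_eq]
  exact (cont_ell _ _ _).sub continuous_const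

variable [NeZero l]

theorem smooth_cont {F : (Link D l → G) → ℝ} (hF : IsSmooth F) : Continuous F := by
  obtain ⟨f, hf, h⟩ := hF
  have e : F = fun U => f (mU U) := funext h
  rw [e]
  exact hf.continuous.comp cont_mU

theorem cont_zet (B : LieBasis G n) (V : Link D l → G)
    (A : Matrix (Link D l × Fin n) (Link D l × Fin n) ℝ) (c : Link D l × Fin n → ℝ)
    (k : Link D l × Fin n) : Continuous (fun U => zet B V A c U k) := by
  unfold zet mulVec dotProduct
  exact (continuous_finsetSum _ fun m _ => continuous_const.mul (cont_yy B V m)).add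
    continuous_const

theorem cont_mag : Continuous (magnetic : (Link D l → G) → ℝ) := by
  have h : (magnetic : (Link D l → G) → ℝ) = fun U => SS fun x i j =>
      1 / 2 * ‖pM x i j (mU U) - 1‖ ^ 2 := by
    funext U
    rw [magnetic_eq]
    rfl
  rw [h]
  unfold SS
  refine continuous_finsetSum _ fun x _ => continuous_finsetSum _ fun i _ =>
    continuous_finsetSum _ fun j _ => ?_
  split_ifs
  · exact continuous_const.mul
      (((((pM_smooth x i j).continuous.comp cont_mU).sub continuous_const).norm).pow 2)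
  · exact continuous_const

theorem smooth_hh (B : LieBasis G n) (V : Link D l → G)
    (A : Matrix (Link D l × Fin n) (Link D l × Fin n) ℝ) (c : Link D l × Fin n → ℝ) (s : ℝ) :
    IsSmooth (hh B V A c s) := by
  have hy : ∀ k : Link D l × Fin n, ContDiff ℝ ∞ (fun M : Link D l → Mt N =>
      trL ((B.X k.2)ᴴ) (mt (V k.1))ᴴ (M k.1) - (trace ((B.X k.2)ᴴ)).re) := fun k =>
    ((trL ((B.X k.2)ᴴ) (mt (V k.1))ᴴ).contDiff.comp (contDiff_apply ℝ (Mt N) k.1)).sub
      contDiff_const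
  refine ⟨fun M => s * (1 / 2 * (∑ k : Link D l × Fin n, ∑ m : Link D l × Fin n,
    A k m * ((trL ((B.X k.2)ᴴ) (mt (V k.1))ᴴ (M k.1) - (trace ((B.X k.2)ᴴ)).re) *
    (trL ((B.X m.2)ᴴ) (mt (V m.1))ᴴ (M m.1) - (trace ((B.X m.2)ᴴ)).re))) +
    ∑ k, c k * (trL ((B.X k.2)ᴴ) (mt (V k.1))ᴴ (M k.1) - (trace ((B.X k.2)ᴴ)).re)), ?_, ?_⟩
  · exact contDiff_const.mul ((contDiff_const.mul (ContDiff.sum fun k _ => ContDiff.sum fun m _ =>
      contDiff_const.mul ((hy k).mul (hy m)))).add (ContDiff.sum fun k _ =>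
      contDiff_const.mul (hy k)))
  · intro U
    unfold hh
    simp only [yy_eq]
    rfl

end

theorem sc_Mt (N : ℕ) : SecondCountableTopology (Mt N) :=
  inferInstanceAs (SecondCountableTopology (Fin N → Fin N → ℂ))

theorem compact_UU (N : ℕ) : IsCompact (UU N : Set (Mt N)) := by
  have h1 : IsCompact (Set.pi Set.univ fun _ : Fin N => Set.pi Set.univ fun _ : Fin N =>
      Metric.closedBall (0 : ℂ) 1) :=
    isCompact_univ_pi fun _ => isCompact_univ_pi fun _ => isCompact_closedBall _ _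
  refine IsCompact.of_isClosed_subset h1 ?_ ?_
  · have h2 : (UU N : Set (Mt N)) = {A | A * star A = 1} := by
      ext A
      exact Matrix.mem_unitaryGroup_iff
    rw [h2]
    exact isClosed_eq (continuous_id.mul continuous_star) continuous_const
  · intro A hA i _ j _
    rw [mem_closedBall_zero_iff]
    exact entry_norm_bound_of_unitary hA i j

theorem lap_real (T X Y Z t : ℝ) (h : T ≤ X) (h1 : 0 ≤ Y) (h2 : Y ≤ Z) (h3 : 0 < t) :
    T - t * X - Z ≤ (1 - t) * (T - Y) := by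
  nlinarith [mul_le_mul_of_nonneg_left h h3.le, mul_nonneg h3.le h1]

/-- choice of the small parameter -/
theorem small_real (m n t ε : ℝ) (hm0 : 0 ≤ m) (hn0 : 0 ≤ n) (htpos : 0 < t) (a1 : t < 1)
    (a2 : t < ε) (a3 : t < 1 / (m + 1)) (a4 : t < 1 / (3 * (n * m + 1))) :
    t ^ 3 < ε ∧ m * t ^ 3 ≤ 1 ∧ n * (m * t ^ 3) ≤ t / 3 ∧ t ^ 3 ≤ t := by
  have hnm : 0 ≤ n * m := mul_nonneg hn0 hm0
  have b1 : t ^ 3 ≤ t := by
    have : t ^ 3 ≤ t ^ 1 := pow_le_pow_of_le_one htpos.le a1.le (by norm_num)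
    simpa using this
  have b2 : t ^ 3 < ε := b1.trans_lt a2
  have b3 : m * t ^ 3 ≤ 1 := by
    have h3 : t * (m + 1) < 1 := by rwa [lt_div_iff₀ (by positivity)] at a3
    nlinarith [mul_le_mul_of_nonneg_left b1 hm0]
  have b4 : n * (m * t ^ 3) ≤ t / 3 := by
    have h3 : t * (3 * (n * m + 1)) < 1 := by rwa [lt_div_iff₀ (by positivity)] at a4
    have h4 : n * m * t ≤ 1 / 3 := by nlinarith
    have h5 : t ^ 3 ≤ t * t := by
      have : t ^ 3 = t * t * t := by ring
      rw [this]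
      nlinarith [mul_pos htpos htpos]
    calc n * (m * t ^ 3) = (n * m) * t ^ 3 := by ring
      _ ≤ (n * m) * (t * t) := by gcongr
      _ = (n * m * t) * t := by ring
      _ ≤ 1 / 3 * t := by gcongr
      _ = t / 3 := by ring
  exact ⟨b2, b3, b4, b1⟩

theorem five_real (g : ℝ) (hg : 0 < g) (t0 : ℝ) (ht0 : 0 < t0) (h : g < t0 ^ 5) : ∃ t : ℝ,
    g ^ (1 / 5 : ℝ) = t ∧ 0 < t ∧ t ^ 5 = g ∧ g ^ (3 / 5 : ℝ) = t ^ 3 ∧ t < t0 := by
  obtain ⟨t, ht⟩ : ∃ t, t = g ^ (1 / 5 : ℝ) := ⟨_, rfl⟩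
  have htpos : 0 < t := by rw [ht]; positivity
  have ht5 : t ^ 5 = g := by
    rw [ht, ← Real.rpow_natCast, ← Real.rpow_mul hg.le]
    norm_num
  have ht3 : g ^ (3 / 5 : ℝ) = t ^ 3 := by
    rw [ht, ← Real.rpow_natCast, ← Real.rpow_mul hg.le]
    norm_num
  refine ⟨t, ht.symm, htpos, ht5, ht3, ?_⟩
  by_contra h'
  push Not at h'
  have : t0 ^ 5 ≤ t ^ 5 := by gcongr
  rw [ht5] at this
  linarith

theorem grad_real (t x Z G : ℝ) (hZ : 0 ≤ Z) (ht1 : 0 ≤ 1 - t)
    (q3 : G ≤ (1 - t) ^ 2 * (1 + x) ^ 2 * Z) (q4 : (1 - t) * (1 + x) ^ 2 ≤ 1) :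
    G ≤ (1 - t) * Z := by
  refine q3.trans ?_
  have : (1 - t) ^ 2 * (1 + x) ^ 2 * Z = (1 - t) * Z * ((1 - t) * (1 + x) ^ 2) := by ring
  rw [this]
  have h0 : 0 ≤ (1 - t) * Z := mul_nonneg ht1 hZ
  calc (1 - t) * Z * ((1 - t) * (1 + x) ^ 2) ≤ (1 - t) * Z * 1 :=
        mul_le_mul_of_nonneg_left q4 h0
    _ = _ := mul_one _

theorem mag_real (t g K Z M : ℝ) (ht : 0 < t) (ht5 : t ^ 5 = g)
    (q1 : (1 - t) / 2 * Z - K * (t ^ 3) ^ 4 / t ≤ M) :
    1 / (2 * g ^ 2) * ((1 - t) * Z) - K * t ≤ 1 / g ^ 2 * M := by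
  have hg : 0 < g := by rw [← ht5]; positivity
  have h1 : 1 / g ^ 2 * ((1 - t) / 2 * Z - K * (t ^ 3) ^ 4 / t) ≤ 1 / g ^ 2 * M :=
    mul_le_mul_of_nonneg_left q1 (by positivity)
  refine le_trans (le_of_eq ?_) h1
  rw [← ht5]
  field_simp

theorem final_real (T Lp Gr Mg Z K t g C1 m nk : ℝ)
    (q6 : 1 / (2 * g ^ 2) * Gr ≤ 1 / (2 * g ^ 2) * ((1 - t) * Z))
    (q7 : 1 / (2 * g ^ 2) * ((1 - t) * Z) - K * t ≤ 1 / g ^ 2 * Mg)
    (q14 : T - t * (nk * K) - C1 * m * t ≤ Lp) :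
    1 / 2 * T - (1 / 2 * C1 * m + 1 / 2 * nk * K + K) * t ≤
      1 / 2 * Lp - 1 / (2 * g ^ 2) * Gr + 1 / g ^ 2 * Mg := by
  linarith

theorem trace_le {ι : Type*} [Fintype ι] (A : Matrix ι ι ℝ) (K : ℝ) (h : ∀ k m, |A k m| ≤ K) :
    trace A ≤ (Fintype.card ι : ℝ) * K := by
  unfold trace diag
  calc ∑ k, A k k ≤ ∑ _k : ι, K := Finset.sum_le_sum fun k _ => (le_abs_self _).trans (h k k)
    _ = (Fintype.card ι : ℝ) * K := by rw [Finset.sum_const, nsmul_eq_mul, Finset.card_univ]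

theorem t_LOCV (_h0 : S_EXPG) (h1 : S_LOGC) (h2 : S_JACG) : S_LOCV := by
  intro N n D l _ G hG B _ _ μ _ _
  have hc0 : CompactSpace (UU N) := isCompact_iff_compactSpace.1 (compact_UU N)
  have hc1 : SecondCountableTopology (Mt N) := sc_Mt N
  have hcG : CompactSpace G := by
    have h1 : IsCompact (G : Set (UU N)) := hG.isCompact
    exact isCompact_iff_compactSpace.1 h1
  have h00 : SecondCountableTopology (UU N) := TopologicalSpace.Subtype.secondCountableTopology _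
  have h01 : SecondCountableTopology G := TopologicalSpace.Subtype.secondCountableTopology _
  obtain ⟨K, ε, hK, hε, H⟩ := mag_lower h1 hG B D l
  obtain ⟨m, hm⟩ : ∃ m, m = mm N := ⟨_, rfl⟩
  have hm0 : 0 ≤ m := by rw [hm]; exact mm_nonneg N
  obtain ⟨nk, hnk⟩ : ∃ nk : ℝ, nk = (Fintype.card (Link D l × Fin n) : ℝ) := ⟨_, rfl⟩
  have hnk0 : 0 ≤ nk := by rw [hnk]; exact Nat.cast_nonneg _
  obtain ⟨nl, hnl⟩ : ∃ nl : ℝ, nl = (Fintype.card (Link D l) : ℝ) := ⟨_, rfl⟩
  have hnl0 : 0 ≤ nl := by rw [hnl]; exact Nat.cast_nonneg _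
  obtain ⟨C1, hC1⟩ : ∃ C1 : ℝ, C1 = nl * n * ((n : ℝ) ^ 2 * (3 * K) + n * (K * (nk + 1))) :=
    ⟨_, rfl⟩
  have hC10 : 0 ≤ C1 := by rw [hC1]; positivity
  obtain ⟨t0, ht0⟩ : ∃ t0 : ℝ,
    t0 = min 1 (min ε (min (1 / (m + 1)) (1 / (3 * (n * m + 1))))) := ⟨_, rfl⟩
  have ht00 : 0 < t0 := by rw [ht0]; positivity
  refine ⟨1 / 2 * C1 * m + 1 / 2 * nk * K + K, t0 ^ 5, by positivity, by positivity, ?_⟩
  intro g hg hg0 V F hF hsupp
  -- the small parameter
  obtain ⟨t, ht, htpos, ht5, ht3, htt0⟩ := five_real g hg t0 ht00 hg0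
  rw [ht]
  rw [ht3] at hsupp
  rw [ht0] at htt0
  have a1 : t < 1 := htt0.trans_le (min_le_left _ _)
  have a2 : t < ε := htt0.trans_le ((min_le_right _ _).trans (min_le_left _ _))
  have a3 : t < 1 / (m + 1) :=
    htt0.trans_le ((min_le_right _ _).trans ((min_le_right _ _).trans (min_le_left _ _)))
  have a4 : t < 1 / (3 * (n * m + 1)) :=
    htt0.trans_le ((min_le_right _ _).trans ((min_le_right _ _).trans (min_le_right _ _)))
  obtain ⟨b2, b3, b4, b1⟩ := small_real m n t ε hm0 (Nat.cast_nonneg n) htpos a1 a2 a3 a4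
  obtain ⟨A, c, hA, hAt, hAK, hcK, HM⟩ := H V
  have hs0 : 0 ≤ 1 - t := by linarith
  have htt : 0 ≤ t ^ 3 := by positivity
  have hδ0 : 0 ≤ m * t ^ 3 := mul_nonneg hm0 htt
  -- Jacobi
  have hJ := h2 N n D l G hG B μ g hg (hh B V A c (1 - t)) F (smooth_hh B V A c (1 - t)) hF
  refine le_trans ?_ hJ
  rw [← integral_const_mul]
  have hcF : Continuous F := smooth_cont hF
  refine integral_mono ?_ ?_ ?_
  · exact (continuous_const.mul (hcF.pow 2)).integrable_of_hasCompactSupport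
      (HasCompactSupport.of_compactSpace _)
  · have c1 : Continuous fun U => ∑ e, ∑ a, dlink B e a (dlink B e a (hh B V A c (1 - t))) U := by
      refine continuous_finsetSum _ fun e _ => continuous_finsetSum _ fun a _ => ?_
      have e1 : dlink B e a (dlink B e a (hh B V A c (1 - t))) = fun U =>
          (1 - t) * ∑ b, ((∑ b', A (e, b) (e, b') * ell V ((B.X b')ᴴ * B.X a) e U) *
          ell V ((B.X b)ᴴ * B.X a) e U +
          zet B V A c U (e, b) * ell V ((B.X b)ᴴ * B.X a * B.X a) e U) :=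
        funext fun U => dlink2_hh B V A hA c (1 - t) e a U
      rw [e1]
      refine continuous_const.mul (continuous_finsetSum _ fun b _ => ?_)
      exact ((continuous_finsetSum _ fun b' _ => continuous_const.mul (cont_ell V _ e)).mul
        (cont_ell V _ e)).add ((cont_zet B V A c (e, b)).mul (cont_ell V _ e))
    have c2 : Continuous fun U => ∑ e, ∑ a, dlink B e a (hh B V A c (1 - t)) U ^ 2 := by
      refine continuous_finsetSum _ fun e _ => continuous_finsetSum _ fun a _ => ?_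
      rw [dlink_hh B V A hA]
      exact (continuous_const.mul (continuous_finsetSum _ fun b _ =>
        (cont_zet B V A c (e, b)).mul (cont_ell V _ e))).pow 2
    exact ((((continuous_const.mul c1).sub (continuous_const.mul c2)).add
      (continuous_const.mul cont_mag)).mul (hcF.pow 2)).integrable_of_hasCompactSupport
      (HasCompactSupport.of_compactSpace _)
  · intro U
    by_cases hFU : F U = 0
    · simp [hFU]
    have hU := hsupp U hFU
    have hW : ∀ e, ‖mt (U e) * (mt (V e))ᴴ - 1‖ ≤ m * t ^ 3 := fun e => by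
      rw [hm]; exact W_norm V U e (hU e)
    have q1 := HM U (t ^ 3) t htt b2 htpos a1.le hU
    have q2 := lap_lower B V A hA c K hK hAK hcK (1 - t) (m * t ^ 3) hs0 hδ0 b3 U hW
    have q3 := grad_upper B V A hA c (1 - t) (m * t ^ 3) hδ0 U hW
    have q4 := P3 ((n : ℝ) * (m * t ^ 3)) t (mul_nonneg (Nat.cast_nonneg n) hδ0) htpos a1.le b4
    simp only
    refine mul_le_mul_of_nonneg_right ?_ (sq_nonneg _)
    obtain ⟨Z, hZ⟩ : ∃ Z, Z = ∑ k, zet B V A c U k ^ 2 := ⟨_, rfl⟩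
    have hZ' : ∑ k, ((A *ᵥ yy B V U) k + c k) ^ 2 = Z := hZ.symm
    rw [hZ'] at q1
    rw [← hZ] at q3
    have hZ0 : 0 ≤ Z := by rw [hZ]; exact Finset.sum_nonneg fun k _ => sq_nonneg _
    have q5 := grad_real t _ Z _ hZ0 hs0 q3 q4
    have q6 : 1 / (2 * g ^ 2) * (∑ e, ∑ a, dlink B e a (hh B V A c (1 - t)) U ^ 2) ≤
        1 / (2 * g ^ 2) * ((1 - t) * Z) :=
      mul_le_mul_of_nonneg_left q5 (by positivity)
    have q7 := mag_real t g K Z _ htpos ht5 q1
    -- the Laplacian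
    have q10 : trace A ≤ nk * K := by rw [hnk]; exact trace_le A K hAK
    have q11 : (Fintype.card (Link D l) : ℝ) * n * ((n : ℝ) ^ 2 * (3 * K * (m * t ^ 3)) +
        n * (K * (Fintype.card (Link D l × Fin n) + 1) * (m * t ^ 3))) = C1 * m * t ^ 3 := by
      rw [hC1, hnl, hnk]; ring
    rw [q11] at q2
    have hCm : 0 ≤ C1 * m := mul_nonneg hC10 hm0
    have q12 : C1 * m * t ^ 3 ≤ C1 * m * t := mul_le_mul_of_nonneg_left b1 hCm
    have q13 := lap_real (trace A) (nk * K) (C1 * m * t ^ 3) (C1 * m * t) t q10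
      (mul_nonneg hCm htt) q12 htpos
    rw [hAt] at q13 q2
    have q14 := q13.trans q2
    exact final_real _ _ _ _ Z K t g C1 m nk q6 q7 q14

end Pool.Agent.Q174.LU
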