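import Pool.Agent.Q77.LU.StmH

/-! # Project LU (helper77), job LOCV, linear algebra (helper174) -/

set_option autoImplicit false

namespace Pool.Agent.Q174.LU

open Matrix Finset
open Pool.Agent.Q77.LU

theorem orth_dot {ι : Type} [Fintype ι] [DecidableEq ι] (P : Matrix ι ι ℝ) (h : Pᵀ * P = 1)
    (z z' : ι → ℝ) : (P *ᵥ z) ⬝ᵥ (P *ᵥ z') = z ⬝ᵥ z' := by
  rw [dotProduct_mulVec, vecMul_mulVec, h, vecMul_one]

theorem diag_mulVec {ι : Type} [Fintype ι] [DecidableEq ι] (d z : ι → ℝ) :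
    diagonal d *ᵥ z = fun i => d i * z i := by
  funext i
  rw [mulVec_diagonal]

/-- Square root of a quadratic polynomial. -/
theorem sqrt_lin {ι : Type} [Fintype ι] [DecidableEq ι] (H : Matrix ι ι ℝ) (hH : H.PosSemidef)
    (w : ι → ℝ) (r : ℝ)
    (hq : ∀ y : ι → ℝ, 0 ≤ y ⬝ᵥ (H *ᵥ y) + 2 * (w ⬝ᵥ y) + r) :
    ∃ (A : Matrix ι ι ℝ) (c : ι → ℝ), (∀ k l, A k l = A l k) ∧ trace A = tsq H ∧
      ∀ y : ι → ℝ, (A *ᵥ y + c) ⬝ᵥ (A *ᵥ y + c) ≤ y ⬝ᵥ (H *ᵥ y) + 2 * (w ⬝ᵥ y) + r := by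
  classical
  have hh := hH.1
  have hl0 : ∀ i, 0 ≤ hh.eigenvalues i := hH.eigenvalues_nonneg
  obtain ⟨P, hPd⟩ : ∃ P : Matrix ι ι ℝ, P = (hh.eigenvectorUnitary : Matrix ι ι ℝ) := ⟨_, rfl⟩
  have hP1 : Pᵀ * P = 1 := by
    have := (Matrix.mem_unitaryGroup_iff').1 hh.eigenvectorUnitary.2
    rw [hPd]
    simpa [star_eq_conjTranspose, conjTranspose_eq_transpose_of_trivial] using this
  have hP2 : P * Pᵀ = 1 := mul_eq_one_comm.1 hP1
  have hspec : H = P * diagonal hh.eigenvalues * Pᵀ := by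
    have := hh.spectral_theorem
    rw [Unitary.conjStarAlgAut_apply] at this
    rw [hPd]
    simpa [star_eq_conjTranspose, conjTranspose_eq_transpose_of_trivial] using this
  have htsq : tsq H = ∑ i, Real.sqrt (hh.eigenvalues i) := by
    unfold tsq
    rw [dif_pos hh]
  generalize hh.eigenvalues = lam at hl0 hspec htsq
  set β : ι → ℝ := Pᵀ *ᵥ w with hβ
  set γ : ι → ℝ := fun i => if lam i = 0 then 0 else β i / Real.sqrt (lam i) with hγ
  -- the quadratic form in the new coordinates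
  have hQ : ∀ η : ι → ℝ, (P *ᵥ η) ⬝ᵥ (H *ᵥ (P *ᵥ η)) + 2 * (w ⬝ᵥ (P *ᵥ η)) + r =
      ∑ i, (lam i * η i ^ 2 + 2 * (β i * η i)) + r := by
    intro η
    have h1 : H *ᵥ (P *ᵥ η) = P *ᵥ (fun i => lam i * η i) := by
      rw [hspec, mulVec_mulVec]
      have : P * diagonal lam * Pᵀ * P = P * diagonal lam := by
        rw [mul_assoc, hP1, mul_one]
      rw [this, ← mulVec_mulVec, diag_mulVec]
    have h2 : w ⬝ᵥ (P *ᵥ η) = β ⬝ᵥ η := by
      rw [dotProduct_mulVec, hβ, mulVec_transpose]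
    rw [h1, orth_dot P hP1, h2]
    simp only [dotProduct]
    rw [sum_add_distrib, mul_sum]
    congr 2
    exact sum_congr rfl fun i _ => by ring
  have hQ0 : ∀ η : ι → ℝ, 0 ≤ ∑ i, (lam i * η i ^ 2 + 2 * (β i * η i)) + r := by
    intro η; rw [← hQ]; exact hq _
  have hβ0 : ∀ i, lam i = 0 → β i = 0 := by
    intro i hi
    by_contra hne
    have h1 := hQ0 (Pi.single i (-(r + 1) / (2 * β i)))
    have h2 : ∑ j, (lam j * (Pi.single i (-(r + 1) / (2 * β i)) : ι → ℝ) j ^ 2 +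
        2 * (β j * (Pi.single i (-(r + 1) / (2 * β i)) : ι → ℝ) j)) = -(r + 1) := by
      rw [sum_eq_single i]
      · rw [hi, Pi.single_eq_same]
        field_simp
        ring
      · intro j _ hj
        rw [Pi.single_eq_of_ne hj]; ring
      · intro h; exact absurd (mem_univ _) h
    rw [h2] at h1
    linarith
  have hsq : ∀ i, Real.sqrt (lam i) * γ i = β i := by
    intro i
    simp only [hγ]
    split_ifs with h
    · rw [mul_zero, hβ0 i h]
    · have : Real.sqrt (lam i) ≠ 0 := by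
        rw [Real.sqrt_ne_zero (hl0 i)]; exact h
      field_simp
  have hγr : ∑ i, γ i ^ 2 ≤ r := by
    have h1 := hQ0 (fun i => if lam i = 0 then 0 else -(γ i / Real.sqrt (lam i)))
    have h2 : ∀ i, lam i * (if lam i = 0 then (0 : ℝ) else -(γ i / Real.sqrt (lam i))) ^ 2 +
        2 * (β i * (if lam i = 0 then (0 : ℝ) else -(γ i / Real.sqrt (lam i)))) = -γ i ^ 2 := by
      intro i
      by_cases h : lam i = 0
      · rw [if_pos h]
        have : γ i = 0 := by simp only [hγ]; rw [if_pos h]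
        rw [this]; ring
      · rw [if_neg h, ← hsq i]
        have h3 : Real.sqrt (lam i) ≠ 0 := by
          rw [Real.sqrt_ne_zero (hl0 i)]; exact h
        have h4 : lam i = Real.sqrt (lam i) ^ 2 := (Real.sq_sqrt (hl0 i)).symm
        generalize Real.sqrt (lam i) = s at h3 h4 ⊢
        rw [h4]
        field_simp
        ring
    simp only [h2, sum_neg_distrib] at h1
    linarith
  refine ⟨P * diagonal (fun i => Real.sqrt (lam i)) * Pᵀ, P *ᵥ γ, ?_, ?_, ?_⟩
  · intro k l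
    have h1 : (P * diagonal (fun i => Real.sqrt (lam i)) * Pᵀ)ᵀ =
        P * diagonal (fun i => Real.sqrt (lam i)) * Pᵀ := by
      rw [transpose_mul, transpose_mul, transpose_transpose, diagonal_transpose, mul_assoc]
    calc (P * diagonal (fun i => Real.sqrt (lam i)) * Pᵀ) k l
        = ((P * diagonal (fun i => Real.sqrt (lam i)) * Pᵀ)ᵀ) k l := by rw [h1]
      _ = _ := rfl
  · rw [trace_mul_comm, ← mul_assoc, hP1, one_mul, htsq, trace]
    simp
  · intro y
    obtain ⟨η, hη⟩ : ∃ η, η = Pᵀ *ᵥ y := ⟨_, rfl⟩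
    have hy : y = P *ᵥ η := by
      rw [hη, mulVec_mulVec, hP2, one_mulVec]
    have h1 : (P * diagonal (fun i => Real.sqrt (lam i)) * Pᵀ) *ᵥ y + P *ᵥ γ =
        P *ᵥ (fun i => Real.sqrt (lam i) * η i + γ i) := by
      rw [← mulVec_mulVec, ← hη, ← mulVec_mulVec, diag_mulVec, ← mulVec_add]
      rfl
    rw [h1, orth_dot P hP1, hy, hQ]
    have h2 : ∀ i, (Real.sqrt (lam i) * η i + γ i) * (Real.sqrt (lam i) * η i + γ i) =
        (lam i * η i ^ 2 + 2 * (β i * η i)) + γ i ^ 2 := by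
      intro i
      rw [← hsq i]
      have h4 : lam i = Real.sqrt (lam i) ^ 2 := (Real.sq_sqrt (hl0 i)).symm
      generalize Real.sqrt (lam i) = s at h4 ⊢
      rw [h4]; ring
    simp only [dotProduct, h2]
    rw [sum_add_distrib]
    linarith

end Pool.Agent.Q174.LU
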