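import Pool.Agent.Q174.LU.Plq
import Pool.Agent.Q174.LU.Lin

/-! # Project LU (helper77), job LOCV, lower bound of the magnetic energy (helper174) -/

set_option autoImplicit false

namespace Pool.Agent.Q174.LU

open Matrix Set Filter Topology
open scoped ContDiff Matrix.Norms.Frobenius
open Pool.Agent.Q77.LU

/-! ### sums over plaquettes -/

section SSsec
variable {D l : ℕ} [NeZero l]

/-- sum over the plaquettes -/
def SS (f : (Fin D → ZMod l) → Fin D → Fin D → ℝ) : ℝ :=
  ∑ x : Fin D → ZMod l, ∑ i : Fin D, ∑ j : Fin D, if i < j then f x i j else 0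

theorem SS_mono {f g : (Fin D → ZMod l) → Fin D → Fin D → ℝ} (h : ∀ x i j, f x i j ≤ g x i j) :
    SS f ≤ SS g := by
  unfold SS
  refine Finset.sum_le_sum fun x _ => Finset.sum_le_sum fun i _ => Finset.sum_le_sum fun j _ => ?_
  split_ifs
  · exact h x i j
  · exact le_rfl

theorem SS_nonneg {f : (Fin D → ZMod l) → Fin D → Fin D → ℝ} (h : ∀ x i j, 0 ≤ f x i j) :
    0 ≤ SS f := by
  have h1 := SS_mono (f := fun _ _ _ => (0 : ℝ)) (g := f) h
  refine le_trans (le_of_eq ?_) h1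
  simp [SS]

theorem SS_add (f g : (Fin D → ZMod l) → Fin D → Fin D → ℝ) :
    SS (fun x i j => f x i j + g x i j) = SS f + SS g := by
  unfold SS
  rw [← Finset.sum_add_distrib]
  refine Finset.sum_congr rfl fun x _ => ?_
  rw [← Finset.sum_add_distrib]
  refine Finset.sum_congr rfl fun i _ => ?_
  rw [← Finset.sum_add_distrib]
  refine Finset.sum_congr rfl fun j _ => ?_
  split_ifs <;> simp

theorem SS_mul (c : ℝ) (f : (Fin D → ZMod l) → Fin D → Fin D → ℝ) :
    SS (fun x i j => c * f x i j) = c * SS f := by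
  unfold SS
  rw [Finset.mul_sum]
  refine Finset.sum_congr rfl fun x _ => ?_
  rw [Finset.mul_sum]
  refine Finset.sum_congr rfl fun i _ => ?_
  rw [Finset.mul_sum]
  refine Finset.sum_congr rfl fun j _ => ?_
  split_ifs <;> simp

theorem SS_sum {κ : Type*} (s : Finset κ) (f : κ → (Fin D → ZMod l) → Fin D → Fin D → ℝ) :
    SS (fun x i j => ∑ k ∈ s, f k x i j) = ∑ k ∈ s, SS (f k) := by
  classical
  induction s using Finset.induction_on with
  | empty => simp [SS]
  | insert a s ha ih =>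
    rw [Finset.sum_insert ha, ← ih, ← SS_add]
    congr 1
    funext x i j
    rw [Finset.sum_insert ha]

/-- the number of plaquettes (at most) -/
noncomputable def nP (D l : ℕ) [NeZero l] : ℝ := SS (D := D) (l := l) (fun _ _ _ => (1 : ℝ))

theorem nP_nonneg (D l : ℕ) [NeZero l] : 0 ≤ nP D l := SS_nonneg fun _ _ _ => zero_le_one

theorem SS_const (c : ℝ) : SS (D := D) (l := l) (fun _ _ _ => c) = c * nP D l := by
  unfold nP
  rw [← SS_mul]
  simp

end SSsec

/-! ### norms of linear combinations -/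

theorem tr_lin {N : ℕ} {κ : Type*} [Fintype κ] (d : κ → Mt N) (y : κ → ℝ) (M : Mt N) :
    (trace ((∑ k, y k • d k)ᴴ * M)).re = ∑ k, y k * (trace ((d k)ᴴ * M)).re := by
  rw [re_tr_comm, ← ipL_apply, map_sum]
  refine Finset.sum_congr rfl fun k _ => ?_
  rw [map_smul, smul_eq_mul, ipL_apply, re_tr_comm]

theorem norm_lin {N : ℕ} {κ : Type*} [Fintype κ] (R : Mt N) (d : κ → Mt N) (y : κ → ℝ) :
    ‖R + ∑ k, y k • d k‖ ^ 2 = (∑ k, y k * ∑ l, (trace ((d k)ᴴ * d l)).re * y l) +
      2 * (∑ k, (trace ((d k)ᴴ * R)).re * y k) + ‖R‖ ^ 2 := by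
  rw [add_comm R, norm_add_sq', tr_lin]
  have h1 : ‖∑ k, y k • d k‖ ^ 2 = ∑ k, y k * ∑ l, (trace ((d k)ᴴ * d l)).re * y l := by
    rw [← norm_sq, tr_lin]
    refine Finset.sum_congr rfl fun k _ => ?_
    rw [← re_tr_comm, tr_lin]
    congr 1
    refine Finset.sum_congr rfl fun m _ => ?_
    rw [re_tr_comm (d k) (d m), mul_comm]
  rw [h1]
  congr 2
  congr 1
  exact Finset.sum_congr rfl fun k _ => mul_comm _ _

/-- `(|a| - |b|)^2` -/
theorem young (a e t : ℝ) (ht : 0 < t) : (1 - t) * a ^ 2 - e ^ 2 / t ≤ (a - e) ^ 2 := by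
  have h : (a - e) ^ 2 - ((1 - t) * a ^ 2 - e ^ 2 / t) = (t * a - e) ^ 2 / t + e ^ 2 := by
    field_simp
    ring
  have h2 : 0 ≤ (t * a - e) ^ 2 / t + e ^ 2 := by positivity
  linarith

theorem young2 (a e t s : ℝ) (ha : 0 ≤ a) (he : 0 ≤ e) (ht : 0 < t) (ht1 : t ≤ 1) (hs : 0 ≤ s)
    (h : a - e ≤ s) : (1 - t) * a ^ 2 - e ^ 2 / t ≤ s ^ 2 := by
  rcases le_total e a with h15 | h15
  · have h13 := young a e t ht
    have h16 : (a - e) ^ 2 ≤ s ^ 2 := by
      have : 0 ≤ a - e := by linarith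
      gcongr
    linarith
  · have h17 : (1 - t) * a ^ 2 ≤ e ^ 2 / t := by
      rw [le_div_iff₀ ht]
      have h18 : a ^ 2 ≤ e ^ 2 := by gcongr
      have h19 : (1 - t) * t ≤ 1 := by nlinarith
      have h20 : 0 ≤ (1 - t) * t := mul_nonneg (by linarith) ht.le
      nlinarith [sq_nonneg a]
    have h21 : 0 ≤ s ^ 2 := sq_nonneg _
    linarith

section
variable {N n D l : ℕ} [NeZero l] {G : Subgroup (UU N)}

theorem hess_apply (B : LieBasis G n) (V : Link D l → G) (p q : Link D l × Fin n) :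
    hess B V p q = SS fun x i j => (trace ((dpl B V x i j p)ᴴ * dpl B V x i j q)).re := rfl

theorem one_sub_re (g : G) : (trace (1 - mt g)).re = 1 / 2 * ‖mt g - 1‖ ^ 2 := by
  rw [← norm_sq]
  have h : (mt g - 1)ᴴ * (mt g - 1) = (1 - mt g) + (1 - mt g)ᴴ := by
    rw [conjTranspose_sub, conjTranspose_one, sub_mul, mul_sub, mt_unit, mul_one, one_mul,
      conjTranspose_sub, conjTranspose_one]
    abel
  rw [h, trace_add, trace_conjTranspose, Complex.add_re]
  simp
  ring

theorem magnetic_eq (U : Link D l → G) :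
    magnetic U = SS fun x i j => 1 / 2 * ‖mt (plaq U x i j) - 1‖ ^ 2 := by
  unfold magnetic SS
  simp only [one_sub_re]

/-- The quadratic polynomial. -/
theorem quad_eq (B : LieBasis G n) (V : Link D l → G) (y : Link D l × Fin n → ℝ) :
    SS (fun x i j => ‖(mt (plaq V x i j) - 1) + ∑ k, y k • dpl B V x i j k‖ ^ 2) =
      y ⬝ᵥ (hess B V *ᵥ y) +
      2 * ((fun k => SS fun x i j => (trace ((dpl B V x i j k)ᴴ *
        (mt (plaq V x i j) - 1))).re) ⬝ᵥ y) +
      SS (fun x i j => ‖mt (plaq V x i j) - 1‖ ^ 2) := by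
  simp only [norm_lin]
  rw [SS_add, SS_add, SS_mul, SS_sum, SS_sum]
  congr 2
  · unfold dotProduct mulVec dotProduct
    refine Finset.sum_congr rfl fun k _ => ?_
    rw [SS_mul, SS_sum]
    congr 1
    refine Finset.sum_congr rfl fun m _ => ?_
    change _ = hess B V k m * y m
    rw [hess_apply, mul_comm, ← SS_mul]
    congr 1
    funext x i j
    ring
  · congr 1
    unfold dotProduct
    refine Finset.sum_congr rfl fun k _ => ?_
    rw [mul_comm, ← SS_mul]
    congr 1
    funext x i j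
    ring

theorem hess_psd (B : LieBasis G n) (V : Link D l → G) : (hess B V).PosSemidef := by
  have hsymm : ∀ p q, hess B V p q = hess B V q p := by
    intro p q
    rw [hess_apply, hess_apply]
    exact congrArg SS (funext fun x => funext fun i => funext fun j => re_tr_comm _ _)
  refine Matrix.PosSemidef.of_dotProduct_mulVec_nonneg
    (Matrix.IsHermitian.ext fun p q => by rw [star_trivial]; exact hsymm _ _) ?_
  intro y
  rw [star_trivial]
  have h : y ⬝ᵥ (hess B V *ᵥ y) =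
      SS (fun x i j => ‖∑ k, y k • dpl B V x i j k‖ ^ 2) := by
    have h1 : ∀ x i j, ‖∑ k, y k • dpl B V x i j k‖ ^ 2 =
        ∑ k, y k * ∑ l, (trace ((dpl B V x i j k)ᴴ * dpl B V x i j l)).re * y l := by
      intro x i j
      have := norm_lin (0 : Mt N) (fun k => dpl B V x i j k) y
      simpa using this
    simp only [h1]
    rw [SS_sum]
    unfold dotProduct mulVec dotProduct
    refine Finset.sum_congr rfl fun k _ => ?_
    rw [SS_mul, SS_sum]
    congr 1
    refine Finset.sum_congr rfl fun m _ => ?_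
    change hess B V k m * y m = _
    rw [hess_apply, mul_comm, ← SS_mul]
    congr 1
    funext x i j
    ring
  rw [h]
  exact SS_nonneg fun x i j => sq_nonneg _

/-- Lower bound of the magnetic energy near `V`. -/
theorem mag_lower (h1 : S_LOGC) (hG : IsClosed (G : Set (UU N))) (B : LieBasis G n) (D l : ℕ)
    [NeZero l] :
    ∃ K ε : ℝ, 0 ≤ K ∧ 0 < ε ∧ ∀ V : Link D l → G,
      ∃ (A : Matrix (Link D l × Fin n) (Link D l × Fin n) ℝ) (c : Link D l × Fin n → ℝ),
      (∀ k m, A k m = A m k) ∧ trace A = tsq (hess B V) ∧ (∀ k m, |A k m| ≤ K) ∧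
      (∀ k, |c k| ≤ K) ∧
      ∀ (U : Link D l → G) (ρ t : ℝ), 0 ≤ ρ → ρ < ε → 0 < t → t ≤ 1 →
      (∀ e, ‖mt (U e) - mt (V e)‖ ≤ ρ) →
      (1 - t) / 2 * (∑ k, ((A *ᵥ yy B V U) k + c k) ^ 2) - K * ρ ^ 4 / t ≤ magnetic U := by
  choose K0 ε0 hK0 hε0 H using
    fun (q : (Fin D → ZMod l) × Fin D × Fin D) => plq_taylor h1 hG B q.1 q.2.1 q.2.2
  -- uniform constants
  set K1 : ℝ := ∑ q, K0 q with hK1
  have hK1q : ∀ q, K0 q ≤ K1 := fun q =>
    Finset.single_le_sum (f := K0) (fun q _ => hK0 q) (Finset.mem_univ q)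
  have hK1n : 0 ≤ K1 := Finset.sum_nonneg fun q _ => hK0 q
  obtain ⟨ε1, hε1, hε1q⟩ : ∃ ε1 : ℝ, 0 < ε1 ∧ ∀ q, ε1 ≤ ε0 q := by
    rcases isEmpty_or_nonempty ((Fin D → ZMod l) × Fin D × Fin D) with hE | hE
    · exact ⟨1, one_pos, fun q => (hE.false q).elim⟩
    · obtain ⟨q0, -, hq0⟩ := Finset.exists_min_image Finset.univ ε0 Finset.univ_nonempty
      exact ⟨ε0 q0, hε0 q0, fun q => hq0 q (Finset.mem_univ q)⟩
  set m := mm N with hm
  have hm0 : 0 ≤ m := mm_nonneg N
  set nk : ℝ := (Fintype.card (Link D l × Fin n) : ℝ) with hnk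
  have hnk0 : 0 ≤ nk := by positivity
  -- bound of the quadratic polynomial
  set Kq : ℝ := (2 * m + nk * K1) ^ 2 * nP D l with hKq
  have hKq0 : 0 ≤ Kq := mul_nonneg (sq_nonneg _) (nP_nonneg D l)
  set KK : ℝ := 2 * Real.sqrt Kq + K1 ^ 2 * nP D l with hKK
  have hKK0 : 0 ≤ KK := by
    have := nP_nonneg D l
    positivity
  refine ⟨KK, ε1, hKK0, hε1, ?_⟩
  intro V
  set w : Link D l × Fin n → ℝ := fun k => SS fun x i j => (trace ((dpl B V x i j k)ᴴ *
        (mt (plaq V x i j) - 1))).re with hw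
  set r : ℝ := SS (fun x i j => ‖mt (plaq V x i j) - 1‖ ^ 2) with hr
  have hquad : ∀ y : Link D l × Fin n → ℝ, y ⬝ᵥ (hess B V *ᵥ y) + 2 * (w ⬝ᵥ y) + r =
      SS (fun x i j => ‖(mt (plaq V x i j) - 1) + ∑ k, y k • dpl B V x i j k‖ ^ 2) :=
    fun y => (quad_eq B V y).symm
  obtain ⟨A, c, hA, hAt, hAc⟩ := sqrt_lin (hess B V) (hess_psd B V) w r (fun y => by
    rw [hquad]
    exact SS_nonneg fun x i j => sq_nonneg _)
  have hdpl : ∀ x i j k, ‖dpl B V x i j k‖ ≤ K1 := fun x i j k =>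
    ((H (x, i, j) V).1 k).trans (hK1q _)
  have hpl : ∀ x i j, ‖mt (plaq V x i j) - 1‖ ≤ 2 * m := by
    intro x i j
    refine (norm_sub_le _ _).trans ?_
    have e1 : ‖(1 : Mt N)‖ = m := norm_mt (1 : G)
    rw [norm_mt, e1]; linarith
  -- bound for `|y| ≤ 1`
  have hQb : ∀ y : Link D l × Fin n → ℝ, (∀ k, |y k| ≤ 1) →
      (A *ᵥ y + c) ⬝ᵥ (A *ᵥ y + c) ≤ Kq := by
    intro y hy
    refine (hAc y).trans ?_
    rw [hquad, hKq, ← SS_const]
    apply SS_mono
    intro x i j
    have h2 : ‖(mt (plaq V x i j) - 1) + ∑ k, y k • dpl B V x i j k‖ ≤ 2 * m + nk * K1 := by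
      refine (norm_add_le _ _).trans (add_le_add (hpl x i j) ?_)
      refine (norm_sum_le _ _).trans ?_
      calc ∑ k, ‖y k • dpl B V x i j k‖ ≤ ∑ _k : Link D l × Fin n, K1 := by
            refine Finset.sum_le_sum fun k _ => ?_
            rw [norm_smul, Real.norm_eq_abs]
            calc |y k| * ‖dpl B V x i j k‖ ≤ 1 * K1 := by
                  have := hy k
                  have := hdpl x i j k
                  gcongr
              _ = K1 := one_mul _
        _ = nk * K1 := by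
            rw [Finset.sum_const, nsmul_eq_mul, Finset.card_univ]
    gcongr
  have hcomp : ∀ (y : Link D l × Fin n → ℝ), (∀ k, |y k| ≤ 1) → ∀ k,
      |(A *ᵥ y) k + c k| ≤ Real.sqrt Kq := by
    intro y hy k
    rw [← Real.sqrt_sq_eq_abs]
    apply Real.sqrt_le_sqrt
    refine le_trans ?_ (hQb y hy)
    unfold dotProduct
    have := Finset.single_le_sum (f := fun k => (A *ᵥ y + c) k * (A *ᵥ y + c) k)
      (fun k _ => mul_self_nonneg _) (Finset.mem_univ k)
    refine le_trans (le_of_eq ?_) this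
    simp only [Pi.add_apply]; ring
  have hcb : ∀ k, |c k| ≤ Real.sqrt Kq := by
    intro k
    have := hcomp 0 (by simp) k
    simpa using this
  have hsq0 := Real.sqrt_nonneg Kq
  have hnn : 0 ≤ K1 ^ 2 * nP D l := mul_nonneg (sq_nonneg _) (nP_nonneg D l)
  refine ⟨A, c, hA, hAt, ?_, ?_, ?_⟩
  · intro k p
    have h3 := hcomp (Pi.single p 1) (by
      intro q
      by_cases h : q = p
      · rw [h, Pi.single_eq_same]; simp
      · rw [Pi.single_eq_of_ne h]; simp) k
    rw [mulVec_single_one] at h3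
    have h4 := hcb k
    have h5 : A k p = (A k p + c k) - c k := by ring
    have h6 : |A k p| ≤ |A k p + c k| + |c k| := by
      conv_lhs => rw [h5]
      exact abs_sub _ _
    have h7 : |A k p + c k| ≤ Real.sqrt Kq := h3
    rw [hKK]; linarith
  · intro k
    have := hcb k
    rw [hKK]; linarith
  · intro U ρ t hρ hρ1 ht ht1 hU
    have h8 : ∀ x i j, 1 / 2 * ((1 - t) *
        ‖(mt (plaq V x i j) - 1) + ∑ k, yy B V U k • dpl B V x i j k‖ ^ 2) -
        1 / 2 * ((K1 * ρ ^ 2) ^ 2 / t) ≤ 1 / 2 * ‖mt (plaq U x i j) - 1‖ ^ 2 := by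
      intro x i j
      have h9 := (H (x, i, j) V).2 U ρ hρ (hρ1.trans_le (hε1q _)) hU
      simp only at h9
      have h10 : K0 (x, i, j) * ρ ^ 2 ≤ K1 * ρ ^ 2 := by
        have := hK1q (x, i, j)
        gcongr
      have e3 : mt (plaq U x i j) - 1 =
          ((mt (plaq V x i j) - 1) + ∑ k, yy B V U k • dpl B V x i j k) +
          (mt (plaq U x i j) - mt (plaq V x i j) - ∑ k, yy B V U k • dpl B V x i j k) := by
        abel
      have h11 := h9.trans h10
      rw [e3]
      clear h9 h10 e3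
      generalize (mt (plaq U x i j) - mt (plaq V x i j) - ∑ k, yy B V U k • dpl B V x i j k) = E'
        at h11 ⊢
      generalize (mt (plaq V x i j) - 1) + ∑ k, yy B V U k • dpl B V x i j k = z
      have h12 : ‖z‖ - ‖E'‖ ≤ ‖z + E'‖ := by
        have := norm_sub_norm_le z (-E')
        rw [norm_neg, sub_neg_eq_add] at this
        exact this
      have h13 := young2 ‖z‖ ‖E'‖ t ‖z + E'‖ (norm_nonneg _) (norm_nonneg _) ht ht1
        (norm_nonneg _) h12
      have h14 : ‖E'‖ ^ 2 / t ≤ (K1 * ρ ^ 2) ^ 2 / t := by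
        gcongr
      linarith
    have h22 := SS_mono h8
    rw [← magnetic_eq] at h22
    refine le_trans ?_ h22
    have h23 : SS (fun x i j => 1 / 2 * ((1 - t) *
        ‖(mt (plaq V x i j) - 1) + ∑ k, yy B V U k • dpl B V x i j k‖ ^ 2) -
        1 / 2 * ((K1 * ρ ^ 2) ^ 2 / t)) = (1 - t) / 2 *
        (yy B V U ⬝ᵥ (hess B V *ᵥ yy B V U) + 2 * (w ⬝ᵥ yy B V U) + r) -
        1 / 2 * ((K1 * ρ ^ 2) ^ 2 / t) * nP D l := by
      rw [hquad, ← SS_mul, ← SS_const]
      have e4 : ∀ f g : (Fin D → ZMod l) → Fin D → Fin D → ℝ,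
          SS (fun x i j => f x i j - g x i j) = SS f - SS g := by
        intro f g
        have := SS_add (fun x i j => f x i j - g x i j) g
        simp only [sub_add_cancel] at this
        linarith
      rw [e4]
      congr 1
      congr 1
      funext x i j
      ring
    rw [h23]
    have h24 := hAc (yy B V U)
    have h25 : ∑ k, ((A *ᵥ yy B V U) k + c k) ^ 2 =
        (A *ᵥ yy B V U + c) ⬝ᵥ (A *ᵥ yy B V U + c) := by
      unfold dotProduct
      refine Finset.sum_congr rfl fun k _ => ?_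
      rw [Pi.add_apply]; ring
    rw [h25]
    have h26 : 0 ≤ (1 - t) / 2 := by linarith
    have h27 := mul_le_mul_of_nonneg_left h24 h26
    have h28 : 1 / 2 * ((K1 * ρ ^ 2) ^ 2 / t) * nP D l ≤ KK * ρ ^ 4 / t := by
      rw [hKK]
      have h29 : 1 / 2 * ((K1 * ρ ^ 2) ^ 2 / t) * nP D l =
          (1 / 2 * (K1 ^ 2 * nP D l)) * ρ ^ 4 / t := by ring
      rw [h29]
      gcongr
      linarith
    linarith

end

end Pool.Agent.Q174.LU
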