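import Pool.Agent.Q174.LU.Proj

/-! # Project LU (helper77), job LOCV, expansion of the plaquettes (helper174) -/

set_option autoImplicit false

namespace Pool.Agent.Q174.LU

open Matrix Set Filter Topology
open scoped ContDiff Matrix.Norms.Frobenius
open Pool.Agent.Q77.LU

/-- conjugate transpose as a real linear map -/
noncomputable def ctL (N : ℕ) : Mt N →L[ℝ] Mt N :=
  LinearMap.toContinuousLinearMap
    { toFun := fun A => Aᴴ
      map_add' := fun A B => conjTranspose_add A B
      map_smul' := fun c A => by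
        ext i j
        simp [conjTranspose_apply] }

theorem ctL_apply {N : ℕ} (A : Mt N) : ctL N A = Aᴴ := rfl

section
variable {N n D l : ℕ} {G : Subgroup (UU N)}

/-- matrices of a configuration -/
def mU (U : Link D l → G) : Link D l → Mt N := fun e => mt (U e)

/-- plaquette as a polynomial in the matrices -/
def pM (x : Fin D → ZMod l) (i j : Fin D) (M : Link D l → Mt N) : Mt N :=
  M (x, i) * M (x + unitv i, j) * (M (x + unitv j, i))ᴴ * (M (x, j))ᴴ

theorem mt_plaq (U : Link D l → G) (x : Fin D → ZMod l) (i j : Fin D) :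
    mt (plaq U x i j) = pM x i j (mU U) := rfl

theorem hasDerivAt_exp (B : LieBasis G n) (a : Fin n) :
    HasDerivAt (fun t => mt (B.ex a t)) (B.X a) 0 := by
  have h : HasDerivAt (fun u : ℝ => NormedSpace.exp (u • B.X a))
      (NormedSpace.exp ((0 : ℝ) • B.X a) * B.X a) 0 :=
    hasDerivAt_exp_smul_const (𝕂 := ℝ) (B.X a) (0 : ℝ)
  have e : (fun u : ℝ => NormedSpace.exp (u • B.X a)) = fun t => mt (B.ex a t) := by
    funext t; exact (B.ex_eq a t).symm
  rw [e] at h
  simpa using h

theorem ex_zero (B : LieBasis G n) (a : Fin n) : B.ex a 0 = 1 := by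
  have h := B.ex_eq a 0
  rw [zero_smul, NormedSpace.exp_zero] at h
  apply Subtype.ext
  apply Subtype.ext
  exact h

variable [NeZero l]

theorem pM_smooth (x : Fin D → ZMod l) (i j : Fin D) :
    ContDiff ℝ ∞ (pM x i j : (Link D l → Mt N) → Mt N) := by
  have h : ∀ e : Link D l, ContDiff ℝ ∞ (fun M : Link D l → Mt N => M e) :=
    fun e => contDiff_apply ℝ (Mt N) e
  have h' : ∀ e : Link D l, ContDiff ℝ ∞ (fun M : Link D l → Mt N => (M e)ᴴ) :=
    fun e => (ctL N).contDiff.comp (h e)
  unfold pM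
  exact (((h _).mul (h _)).mul (h' _)).mul (h' _)

theorem norm_mU (U : Link D l → G) : ‖mU U‖ ≤ mm N := by
  rw [pi_norm_le_iff_of_nonneg (mm_nonneg N)]
  intro e
  exact (norm_mt (U e)).le

/-- direction of the vector field -/
noncomputable def dir (B : LieBasis G n) (V : Link D l → G) (k : Link D l × Fin n) :
    Link D l → Mt N := Pi.single k.1 (B.X k.2 * mt (V k.1))

omit [NeZero l] in
theorem hasDerivAt_mU (B : LieBasis G n) (V : Link D l → G) (e : Link D l) (a : Fin n) :
    HasDerivAt (fun t => mU (Function.update V e (B.ex a t * V e))) (dir B V (e, a)) 0 := by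
  refine hasDerivAt_pi.2 fun e' => ?_
  by_cases h : e' = e
  · subst h
    have h1 : (fun t => mU (Function.update V e' (B.ex a t * V e')) e') =
        fun t => mt (B.ex a t) * mt (V e') := by
      funext t
      unfold mU
      rw [Function.update_self, mt_mul]
    have h2 : dir B V (e', a) e' = B.X a * mt (V e') := by
      unfold dir
      rw [Pi.single_eq_same]
    rw [h1, h2]
    exact (hasDerivAt_exp B a).mul_const _
  · have h1 : (fun t => mU (Function.update V e (B.ex a t * V e)) e') =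
        fun _ => mt (V e') := by
      funext t
      unfold mU
      rw [Function.update_of_ne h]
    have h2 : dir B V (e, a) e' = 0 := by
      unfold dir
      rw [Pi.single_eq_of_ne h]
    rw [h1, h2]
    exact hasDerivAt_const _ _

theorem dpl_eq (B : LieBasis G n) (V : Link D l → G) (x : Fin D → ZMod l) (i j : Fin D)
    (k : Link D l × Fin n) {f' : (Link D l → Mt N) →L[ℝ] Mt N}
    (hf' : HasFDerivAt (pM x i j) f' (mU V)) : dpl B V x i j k = f' (dir B V k) := by
  have h0 : mU (Function.update V k.1 (B.ex k.2 0 * V k.1)) = mU V := by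
    rw [ex_zero, one_mul, Function.update_eq_self]
  have h1 : HasFDerivAt (pM x i j) f' (mU (Function.update V k.1 (B.ex k.2 0 * V k.1))) := by
    rw [h0]; exact hf'
  have h2 := h1.comp_hasDerivAt (0 : ℝ) (hasDerivAt_mU B V k.1 k.2)
  exact h2.deriv

/-- coordinates of `U` relative to `V` -/
noncomputable def yy (B : LieBasis G n) (V U : Link D l → G) (k : Link D l × Fin n) : ℝ :=
  crd B (mt (U k.1) * (mt (V k.1))ᴴ - 1) k.2

omit [NeZero l] in
theorem W_norm (V U : Link D l → G) (e : Link D l) {ρ : ℝ} (h : ‖mt (U e) - mt (V e)‖ ≤ ρ) :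
    ‖mt (U e) * (mt (V e))ᴴ - 1‖ ≤ mm N * ρ := by
  have e1 : mt (U e) * (mt (V e))ᴴ - 1 = (mt (U e) - mt (V e)) * (mt (V e))ᴴ := by
    rw [sub_mul, mt_unit']
  rw [e1]
  calc ‖(mt (U e) - mt (V e)) * (mt (V e))ᴴ‖ ≤ ‖mt (U e) - mt (V e)‖ * ‖(mt (V e))ᴴ‖ :=
        norm_mul_le _ _
    _ = mm N * ‖mt (U e) - mt (V e)‖ := by rw [norm_mt_H, mul_comm]
    _ ≤ mm N * ρ := mul_le_mul_of_nonneg_left h (mm_nonneg N)

/-- Expansion of the plaquettes. -/
theorem plq_taylor (h1 : S_LOGC) (hG : IsClosed (G : Set (UU N))) (B : LieBasis G n)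
    (x : Fin D → ZMod l) (i j : Fin D) :
    ∃ K ε : ℝ, 0 ≤ K ∧ 0 < ε ∧ ∀ (V : Link D l → G), (∀ k, ‖dpl B V x i j k‖ ≤ K) ∧
      ∀ (U : Link D l → G) (ρ : ℝ), 0 ≤ ρ → ρ < ε →
      (∀ e, ‖mt (U e) - mt (V e)‖ ≤ ρ) →
      ‖mt (plaq U x i j) - mt (plaq V x i j) - ∑ k, yy B V U k • dpl B V x i j k‖ ≤
        K * ρ ^ 2 := by
  obtain ⟨K1, ε1, hK1, hε1, H1⟩ := proj h1 hG B
  obtain ⟨K2, hK2, H2, H3⟩ := taylor2h (pM x i j : (Link D l → Mt N) → Mt N)
    (pM_smooth x i j) (mm N)
  have hX : ∀ a, ‖B.X a‖ = 1 := by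
    intro a
    have := norm_sq (B.X a)
    rw [B.orth, if_pos rfl] at this
    have h0 := norm_nonneg (B.X a)
    nlinarith
  have hm := mm_nonneg N
  refine ⟨K2 * mm N + K2 + K2 * (K1 * mm N ^ 2 * mm N), ε1 / (mm N + 1), by positivity,
    by positivity, ?_⟩
  intro V
  have hf' : HasFDerivAt (pM x i j) (fderiv ℝ (pM x i j) (mU V)) (mU V) :=
    (((pM_smooth x i j).differentiable (by simp)).differentiableAt).hasFDerivAt
  have hn : ∀ v, ‖fderiv ℝ (pM x i j) (mU V) v‖ ≤ K2 * ‖v‖ := fun v => H2 _ _ v (norm_mU V) hf'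
  generalize fderiv ℝ (pM x i j) (mU V) = f' at hf' hn
  constructor
  · intro k
    rw [dpl_eq B V x i j k hf']
    have h2 : ‖dir B V k‖ ≤ mm N := by
      unfold dir
      rw [Pi.norm_single]
      refine (norm_mul_le _ _).trans ?_
      rw [hX, one_mul, norm_mt]
    calc ‖f' (dir B V k)‖ ≤ K2 * ‖dir B V k‖ := hn _
      _ ≤ K2 * mm N := by gcongr
      _ ≤ _ := by
        have : 0 ≤ K2 + K2 * (K1 * mm N ^ 2 * mm N) := by positivity
        linarith
  · intro U ρ hρ hρ1 hU
    have hWn : ∀ e, ‖mt (U e) * (mt (V e))ᴴ - 1‖ ≤ mm N * ρ := fun e => W_norm V U e (hU e)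
    -- the error
    obtain ⟨Er, hEr⟩ : ∃ Er : Link D l → Mt N, Er = fun e =>
      (mt (U e) * (mt (V e))ᴴ - 1 - lin B (crd B (mt (U e) * (mt (V e))ᴴ - 1))) * mt (V e) :=
      ⟨_, rfl⟩
    have hErn : ‖Er‖ ≤ K1 * mm N ^ 2 * mm N * ρ ^ 2 := by
      rw [pi_norm_le_iff_of_nonneg (by positivity)]
      intro e
      have h3 : ‖mt (U e) * (mt (V e))ᴴ - 1‖ < ε1 := by
        refine (hWn e).trans_lt ?_
        calc mm N * ρ ≤ (mm N + 1) * ρ := by gcongr; linarith
          _ < (mm N + 1) * (ε1 / (mm N + 1)) := by gcongr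
          _ = ε1 := by field_simp
      have h4 := H1 (U e * (V e)⁻¹) (by rw [mt_mul, mt_inv]; exact h3)
      rw [mt_mul, mt_inv] at h4
      rw [hEr]
      calc ‖(mt (U e) * (mt (V e))ᴴ - 1 - lin B (crd B (mt (U e) * (mt (V e))ᴴ - 1))) *
            mt (V e)‖
          ≤ ‖mt (U e) * (mt (V e))ᴴ - 1 - lin B (crd B (mt (U e) * (mt (V e))ᴴ - 1))‖ *
            ‖mt (V e)‖ := norm_mul_le _ _
        _ ≤ (K1 * ‖mt (U e) * (mt (V e))ᴴ - 1‖ ^ 2) * mm N := by
            rw [norm_mt]; gcongr
        _ ≤ (K1 * (mm N * ρ) ^ 2) * mm N := by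
            have := hWn e
            gcongr
        _ = _ := by ring
    have hdec : mU U - mU V = ∑ k, yy B V U k • dir B V k + Er := by
      funext e
      rw [Pi.add_apply, Finset.sum_apply]
      have h5 : ∀ k : Link D l × Fin n, (yy B V U k • dir B V k) e =
          if k.1 = e then yy B V U k • (B.X k.2 * mt (V k.1)) else 0 := by
        intro k
        rw [Pi.smul_apply]
        unfold dir
        split_ifs with h
        · rw [← h, Pi.single_eq_same]
        · rw [Pi.single_eq_of_ne (Ne.symm h), smul_zero]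
      simp only [h5]
      rw [Fintype.sum_prod_type, Finset.sum_eq_single e]
      · simp only [if_true]
        have h6 : ∑ a, yy B V U (e, a) • (B.X a * mt (V e)) =
            lin B (crd B (mt (U e) * (mt (V e))ᴴ - 1)) * mt (V e) := by
          unfold lin
          rw [Finset.sum_mul]
          refine Finset.sum_congr rfl fun a _ => ?_
          rw [smul_mul_assoc]
          rfl
        rw [h6, hEr]
        simp only
        rw [sub_mul, sub_mul, one_mul, mul_assoc, mt_unit, mul_one]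
        change mt (U e) - mt (V e) = _
        abel
      · intro e' _ he'
        simp [he']
      · intro h; exact absurd (Finset.mem_univ _) h
    have hd1 : f' (mU U - mU V) = ∑ k, yy B V U k • dpl B V x i j k + f' Er := by
      rw [hdec, map_add, map_sum]
      congr 1
      refine Finset.sum_congr rfl fun k _ => ?_
      rw [map_smul, dpl_eq B V x i j k hf']
    have h7 := H3 (mU V) (mU U) f' _ (norm_mU V) (norm_mU U) hf' hd1
    rw [← mt_plaq, ← mt_plaq] at h7
    have h8 : ‖mU U - mU V‖ ≤ ρ := by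
      rw [pi_norm_le_iff_of_nonneg hρ]
      exact hU
    have h9 : ‖f' Er‖ ≤ K2 * (K1 * mm N ^ 2 * mm N * ρ ^ 2) :=
      (hn _).trans (by gcongr)
    have e2 : mt (plaq U x i j) - mt (plaq V x i j) - ∑ k, yy B V U k • dpl B V x i j k =
        (mt (plaq U x i j) - mt (plaq V x i j) -
          (∑ k, yy B V U k • dpl B V x i j k + f' Er)) + f' Er := by abel
    rw [e2]
    refine (norm_add_le _ _).trans ?_
    have h10 : K2 * ‖mU U - mU V‖ ^ 2 ≤ K2 * ρ ^ 2 := by gcongr
    have h11 : 0 ≤ K2 * mm N * ρ ^ 2 := by positivity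
    nlinarith [h7, h9, h10, h11]

end

end Pool.Agent.Q174.LU
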