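import Pool.Agent.Q174.LU.Tay

/-! # Project LU (helper77), job LOCV, projection to the Lie algebra (helper174) -/

set_option autoImplicit false

namespace Pool.Agent.Q174.LU

open Matrix Set Filter Topology
open scoped ContDiff Matrix.Norms.Frobenius
open Pool.Agent.Q77.LU

/-- real scalar product with a matrix -/
noncomputable def ipL {N : ℕ} (A : Mt N) : Mt N →L[ℝ] ℝ :=
  LinearMap.toContinuousLinearMap
    { toFun := fun M => (trace (Aᴴ * M)).re
      map_add' := fun M M' => by rw [mul_add, trace_add, Complex.add_re]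
      map_smul' := fun c M => by
        rw [mul_smul_comm, trace_smul, RingHom.id_apply]
        simp }

theorem ipL_apply {N : ℕ} (A M : Mt N) : ipL A M = (trace (Aᴴ * M)).re := rfl

section
variable {N n : ℕ} {G : Subgroup (UU N)}

/-- `lin` as a linear map -/
noncomputable def linL (B : LieBasis G n) : (Fin n → ℝ) →L[ℝ] Mt N :=
  LinearMap.toContinuousLinearMap
    { toFun := fun v => lin B v
      map_add' := fun v w => by
        unfold lin
        rw [← Finset.sum_add_distrib]
        exact Finset.sum_congr rfl fun a _ => by rw [Pi.add_apply, add_smul]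
      map_smul' := fun c v => by
        unfold lin
        rw [Finset.smul_sum]
        exact Finset.sum_congr rfl fun a _ => by rw [Pi.smul_apply, smul_eq_mul, mul_smul]; rfl }

theorem linL_apply (B : LieBasis G n) (v : Fin n → ℝ) : linL B v = lin B v := rfl

/-- coordinates of the projection -/
noncomputable def crd (B : LieBasis G n) (M : Mt N) : Fin n → ℝ :=
  fun a => (trace ((B.X a)ᴴ * M)).re

theorem crd_lin (B : LieBasis G n) (v : Fin n → ℝ) : crd B (lin B v) = v := by
  funext a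
  unfold crd lin
  rw [Finset.mul_sum, trace_sum, Complex.re_sum]
  have h : ∀ b ∈ Finset.univ, (trace ((B.X a)ᴴ * v b • B.X b)).re = if a = b then v b else 0 := by
    intro b _
    rw [mul_smul_comm, trace_smul, Complex.real_smul, Complex.re_ofReal_mul, B.orth]
    split_ifs <;> simp
  rw [Finset.sum_congr rfl h]
  simp

/-- the part of a matrix orthogonal to the Lie algebra -/
noncomputable def prL (B : LieBasis G n) : Mt N →L[ℝ] Mt N :=
  ContinuousLinearMap.id ℝ (Mt N) - (linL B).comp (ContinuousLinearMap.pi fun a => ipL (B.X a))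

theorem prL_apply (B : LieBasis G n) (M : Mt N) : prL B M = M - lin B (crd B M) := rfl

theorem prL_lin (B : LieBasis G n) (v : Fin n → ℝ) : prL B (lin B v) = 0 := by
  rw [prL_apply, crd_lin, sub_self]

theorem exp_smooth (N : ℕ) : ContDiff ℝ ∞ (NormedSpace.exp : Mt N → Mt N) := by
  rw [contDiff_iff_contDiffAt]
  intro x
  exact (NormedSpace.exp_analytic (𝕂 := ℝ) x).contDiffAt

/-- Elements of the group close to `1` are close to `1 + lin (coordinates)`. -/
theorem proj (h1 : S_LOGC) (hG : IsClosed (G : Set (UU N))) (B : LieBasis G n) :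
    ∃ K ε : ℝ, 0 ≤ K ∧ 0 < ε ∧ ∀ W : G, ‖mt W - 1‖ < ε →
      ‖mt W - 1 - lin B (crd B (mt W - 1))‖ ≤ K * ‖mt W - 1‖ ^ 2 := by
  obtain ⟨lg, ρ, ε, hρ, hε, hlg, hlg1, hlg2⟩ := h1 N n G hG B
  set Ψ : Mt N → Mt N := fun M => prL B (NormedSpace.exp (linL B (lg M)) - 1) with hΨ
  have hΨc : ContDiff ℝ ∞ Ψ :=
    (prL B).contDiff.comp (((exp_smooth N).comp ((linL B).contDiff.comp hlg)).sub contDiff_const)
  obtain ⟨K, hK, -, hT⟩ := taylor2h Ψ hΨc (‖(1 : Mt N)‖ + 1)
  have hlg0 : lg 1 = 0 := by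
    have h := hlg1 0 (by
      have : n2 (0 : Fin n → ℝ) = 0 := by simp [n2]
      rw [this]; positivity)
    have e : lin B (0 : Fin n → ℝ) = 0 := by simp [lin]
    rw [e, NormedSpace.exp_zero] at h
    exact h
  have hΨ1 : Ψ 1 = 0 := by
    simp only [hΨ]
    rw [hlg0, map_zero, NormedSpace.exp_zero, sub_self, map_zero]
  obtain ⟨Ψ', hΨd, hΨ0⟩ : ∃ Ψ' : Mt N →L[ℝ] Mt N, HasFDerivAt Ψ Ψ' 1 ∧ ∀ H, Ψ' H = 0 := by
    have d1 : HasFDerivAt lg (fderiv ℝ lg 1) 1 :=
      ((hlg.differentiable (by simp)).differentiableAt).hasFDerivAt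
    have d2 : HasFDerivAt (fun M => linL B (lg M)) ((linL B).comp (fderiv ℝ lg 1)) 1 :=
      (linL B).hasFDerivAt.comp 1 d1
    have d3 : HasFDerivAt (NormedSpace.exp : Mt N → Mt N) (1 : Mt N →L[ℝ] Mt N)
        (linL B (lg 1)) := by
      rw [hlg0, map_zero]
      exact hasFDerivAt_exp_zero
    have d4 := (d3.comp 1 d2).sub_const (1 : Mt N)
    have d5 := (prL B).hasFDerivAt.comp (1 : Mt N) d4
    refine ⟨_, d5, fun H => ?_⟩
    exact prL_lin B _
  refine ⟨K, min ε 1, hK, by positivity, fun W hW => ?_⟩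
  have hW1 : ‖mt W - 1‖ < ε := hW.trans_le (min_le_left _ _)
  have hW2 : ‖mt W - 1‖ < 1 := hW.trans_le (min_le_right _ _)
  have hWn : ‖mt W‖ ≤ ‖(1 : Mt N)‖ + 1 := by
    have : mt W = 1 + (mt W - 1) := by abel
    rw [this]
    exact (norm_add_le _ _).trans (by linarith)
  have h := hT 1 (mt W) Ψ' 0 (by linarith) hWn hΨd (hΨ0 _)
  rw [hΨ1] at h
  obtain ⟨-, h3⟩ := hlg2 W hW1
  have e : Ψ (mt W) = mt W - 1 - lin B (crd B (mt W - 1)) := by
    simp only [hΨ]
    rw [linL_apply, ← h3, prL_apply]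
  rw [e] at h
  simpa using h

end

end Pool.Agent.Q174.LU
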