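import Pool.Agent.Q174.LU.Der
import Pool.Agent.Q174.LU.Mag

/-! # Project LU (helper77), job LOCV, the pointwise bound (helper174) -/

set_option autoImplicit false

namespace Pool.Agent.Q174.LU

open Matrix Set Filter Topology
open scoped ContDiff Matrix.Norms.Frobenius
open Pool.Agent.Q77.LU

/-! ### real inequalities -/

theorem P1 {n : ℕ} (A : Fin n → Fin n → ℝ) (M : Fin n → ℝ) (a : Fin n) (K δ : ℝ) (hK : 0 ≤ K)
    (hδ : 0 ≤ δ) (hδ1 : δ ≤ 1) (hA : ∀ b b', |A b b'| ≤ K)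
    (hM : ∀ b, |M b - (if b = a then 1 else 0)| ≤ δ) :
    A a a - (n : ℝ) ^ 2 * (3 * K * δ) ≤ ∑ b, (∑ b', A b b' * M b') * M b := by
  have h1 : ∀ b b', A b b' * ((if b' = a then 1 else 0) * (if b = a then 1 else 0)) -
      3 * K * δ ≤ A b b' * M b' * M b := by
    intro b b'
    have h2 : |M b' * M b - (if b' = a then (1 : ℝ) else 0) * (if b = a then 1 else 0)| ≤
        3 * δ := by
      have e : M b' * M b - (if b' = a then (1 : ℝ) else 0) * (if b = a then 1 else 0) =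
          (M b' - (if b' = a then 1 else 0)) * (M b - (if b = a then 1 else 0)) +
          (M b' - (if b' = a then 1 else 0)) * (if b = a then 1 else 0) +
          (if b' = a then 1 else 0) * (M b - (if b = a then 1 else 0)) := by ring
      rw [e]
      have t1 : |(if b = a then (1 : ℝ) else 0)| ≤ 1 := by split_ifs <;> simp
      have t2 : |(if b' = a then (1 : ℝ) else 0)| ≤ 1 := by split_ifs <;> simp
      have m1 := hM b
      have m2 := hM b'
      generalize (M b - (if b = a then (1 : ℝ) else 0)) = u at m1 ⊢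
      generalize (M b' - (if b' = a then (1 : ℝ) else 0)) = v at m2 ⊢
      generalize (if b = a then (1 : ℝ) else 0) = p at t1 ⊢
      generalize (if b' = a then (1 : ℝ) else 0) = q at t2 ⊢
      calc |v * u + v * p + q * u| ≤ |v * u| + |v * p| + |q * u| := by
            refine (abs_add_le _ _).trans ?_
            gcongr
            exact abs_add_le _ _
        _ = |v| * |u| + |v| * |p| + |q| * |u| := by rw [abs_mul, abs_mul, abs_mul]
        _ ≤ δ * 1 + δ * 1 + 1 * δ := by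
            have := m1.trans hδ1
            gcongr
        _ = 3 * δ := by ring
    have h3 := hA b b'
    have h4 : |A b b' * (M b' * M b - (if b' = a then (1 : ℝ) else 0) *
        (if b = a then 1 else 0))| ≤ K * (3 * δ) := by
      rw [abs_mul]
      gcongr
    have h5 := (abs_le.1 h4).1
    nlinarith
  have h6 : ∑ b, ∑ b', (A b b' * ((if b' = a then 1 else 0) * (if b = a then 1 else 0)) -
      3 * K * δ) ≤ ∑ b, ∑ b', A b b' * M b' * M b :=
    Finset.sum_le_sum fun b _ => Finset.sum_le_sum fun b' _ => h1 b b'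
  have h7 : ∑ b, ∑ b', (A b b' * ((if b' = a then 1 else 0) * (if b = a then 1 else 0)) -
      3 * K * δ) = A a a - (n : ℝ) ^ 2 * (3 * K * δ) := by
    simp only [Finset.sum_sub_distrib, Finset.sum_const, Finset.card_univ, Fintype.card_fin,
      nsmul_eq_mul]
    have : ∑ b, ∑ b', A b b' * ((if b' = a then (1 : ℝ) else 0) * (if b = a then 1 else 0)) =
        A a a := by
      simp
    rw [this]; ring
  rw [h7] at h6
  refine h6.trans (le_of_eq ?_)
  exact Finset.sum_congr rfl fun b _ => by rw [Finset.sum_mul]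

theorem P2 {n : ℕ} (M : Fin n → Fin n → ℝ) (z : Fin n → ℝ) (δ : ℝ) (hδ : 0 ≤ δ)
    (hM : ∀ a b, |M a b - (if b = a then 1 else 0)| ≤ δ) :
    ∑ a, (∑ b, z b * M a b) ^ 2 ≤ (1 + n * δ) ^ 2 * ∑ b, z b ^ 2 := by
  set σ : ℝ := ∑ b, |z b| with hσ
  have hσ0 : 0 ≤ σ := Finset.sum_nonneg fun b _ => abs_nonneg _
  have hσ2 : σ ^ 2 ≤ n * ∑ b, z b ^ 2 := by
    have := sq_sum_le_card_mul_sum_sq (s := (Finset.univ : Finset (Fin n))) (f := fun b => |z b|)
    simpa [sq_abs] using this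
  have h1 : ∀ a, ∃ q : ℝ, |q| ≤ δ * σ ∧ ∑ b, z b * M a b = z a + q := by
    intro a
    refine ⟨∑ b, z b * (M a b - (if b = a then 1 else 0)), ?_, ?_⟩
    · refine (Finset.abs_sum_le_sum_abs _ _).trans ?_
      rw [hσ, Finset.mul_sum]
      refine Finset.sum_le_sum fun b _ => ?_
      rw [abs_mul, mul_comm]
      exact mul_le_mul_of_nonneg_right (hM a b) (abs_nonneg _)
    · have : ∑ b, z b * (if b = a then (1 : ℝ) else 0) = z a := by simp
      rw [← this, ← Finset.sum_add_distrib]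
      exact Finset.sum_congr rfl fun b _ => by ring
  choose q hq1 hq2 using h1
  simp only [hq2]
  have h2 : ∀ a, (z a + q a) ^ 2 ≤ z a ^ 2 + 2 * (|z a| * (δ * σ)) + (δ * σ) ^ 2 := by
    intro a
    have h3 := hq1 a
    have h4 : z a * q a ≤ |z a| * (δ * σ) := by
      calc z a * q a ≤ |z a * q a| := le_abs_self _
        _ = |z a| * |q a| := abs_mul _ _
        _ ≤ _ := by gcongr
    have h5 : q a ^ 2 ≤ (δ * σ) ^ 2 := by
      rw [← sq_abs (q a)]
      gcongr
    nlinarith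
  calc ∑ a, (z a + q a) ^ 2
      ≤ ∑ a, (z a ^ 2 + 2 * (|z a| * (δ * σ)) + (δ * σ) ^ 2) := Finset.sum_le_sum fun a _ => h2 a
    _ = ∑ a, z a ^ 2 + 2 * (σ * (δ * σ)) + n * (δ * σ) ^ 2 := by
        rw [Finset.sum_add_distrib, Finset.sum_add_distrib, ← Finset.mul_sum, ← Finset.sum_mul,
          Finset.sum_const, Finset.card_univ, Fintype.card_fin, nsmul_eq_mul]
    _ = ∑ a, z a ^ 2 + (2 * δ + n * δ ^ 2) * σ ^ 2 := by ring
    _ ≤ ∑ a, z a ^ 2 + (2 * δ + n * δ ^ 2) * (n * ∑ b, z b ^ 2) := by gcongr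
    _ = (1 + n * δ) ^ 2 * ∑ b, z b ^ 2 := by ring

theorem P3 (x t : ℝ) (hx : 0 ≤ x) (ht : 0 < t) (ht1 : t ≤ 1) (h : x ≤ t / 3) :
    (1 - t) * (1 + x) ^ 2 ≤ 1 := by
  have h0 : 0 ≤ 1 - t := by linarith
  have h1 : (1 + x) ^ 2 ≤ (1 + t / 3) ^ 2 := by gcongr
  have h2 := mul_le_mul_of_nonneg_left h1 h0
  refine h2.trans ?_
  nlinarith [mul_nonneg ht.le ht.le, mul_nonneg (mul_nonneg ht.le ht.le) ht.le]

section
variable {N n D l : ℕ} {G : Subgroup (UU N)}

theorem ell_sub (V : Link D l → G) (C : Mt N) (e : Link D l) (U : Link D l → G) {δ : ℝ}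
    (hC : ‖C‖ ≤ 1) (h : ‖mt (U e) * (mt (V e))ᴴ - 1‖ ≤ δ) :
    |ell V C e U - (trace C).re| ≤ δ := by
  have e1 : ell V C e U - (trace C).re =
      (trace ((Cᴴ)ᴴ * (mt (U e) * (mt (V e))ᴴ - 1))).re := by
    unfold ell
    rw [conjTranspose_conjTranspose, mul_sub, trace_sub, Complex.sub_re, mul_one]
  rw [e1]
  refine (re_tr_le _ _).trans ?_
  rw [Matrix.frobenius_norm_conjTranspose]
  calc ‖C‖ * ‖mt (U e) * (mt (V e))ᴴ - 1‖ ≤ 1 * δ := by gcongr
    _ = δ := one_mul _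

theorem trX3 (B : LieBasis G n) (a b : Fin n) : (trace ((B.X b)ᴴ * B.X a * B.X a)).re = 0 := by
  have h1 : (trace ((B.X b)ᴴ * B.X a * B.X a)ᴴ).re = (trace ((B.X b)ᴴ * B.X a * B.X a)).re := by
    rw [trace_conjTranspose]; simp
  have h2 : ((B.X b)ᴴ * B.X a * B.X a)ᴴ = B.X a * (B.X a * B.X b) := by
    rw [conjTranspose_mul, conjTranspose_mul, conjTranspose_conjTranspose, skew]
    simp
  have h3 : trace (B.X a * (B.X a * B.X b)) = trace (B.X b * B.X a * B.X a) := by
    rw [← mul_assoc, trace_mul_comm, ← mul_assoc]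
  rw [h2, h3] at h1
  rw [skew] at h1 ⊢
  rw [neg_mul, neg_mul, trace_neg, Complex.neg_re] at h1 ⊢
  linarith

theorem M1_bound (B : LieBasis G n) (V U : Link D l → G) (e : Link D l) (a b : Fin n) {δ : ℝ}
    (h : ‖mt (U e) * (mt (V e))ᴴ - 1‖ ≤ δ) :
    |ell V ((B.X b)ᴴ * B.X a) e U - (if b = a then 1 else 0)| ≤ δ := by
  have h1 : ‖(B.X b)ᴴ * B.X a‖ ≤ 1 := by
    refine (norm_mul_le _ _).trans ?_
    rw [Matrix.frobenius_norm_conjTranspose, norm_X, norm_X, one_mul]
  have h2 := ell_sub V _ e U h1 h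
  rwa [B.orth] at h2

theorem M2_bound (B : LieBasis G n) (V U : Link D l → G) (e : Link D l) (a b : Fin n) {δ : ℝ}
    (h : ‖mt (U e) * (mt (V e))ᴴ - 1‖ ≤ δ) :
    |ell V ((B.X b)ᴴ * B.X a * B.X a) e U| ≤ δ := by
  have h1 : ‖(B.X b)ᴴ * B.X a * B.X a‖ ≤ 1 := by
    refine (norm_mul_le _ _).trans ?_
    rw [norm_X, mul_one]
    refine (norm_mul_le _ _).trans ?_
    rw [Matrix.frobenius_norm_conjTranspose, norm_X, norm_X, one_mul]
  have h2 := ell_sub V _ e U h1 h
  rwa [trX3, sub_zero] at h2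

theorem yy_bound (B : LieBasis G n) (V U : Link D l → G) (k : Link D l × Fin n) {δ : ℝ}
    (h : ‖mt (U k.1) * (mt (V k.1))ᴴ - 1‖ ≤ δ) : |yy B V U k| ≤ δ := by
  unfold yy crd
  refine (re_tr_le _ _).trans ?_
  rw [norm_X, one_mul]
  exact h

variable [NeZero l]

/-- Lower bound of the Laplacian of the exponent. -/
theorem lap_lower (B : LieBasis G n) (V : Link D l → G)
    (A : Matrix (Link D l × Fin n) (Link D l × Fin n) ℝ) (hA : ∀ k m, A k m = A m k)
    (c : Link D l × Fin n → ℝ) (K : ℝ) (hK : 0 ≤ K) (hAK : ∀ k m, |A k m| ≤ K)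
    (hcK : ∀ k, |c k| ≤ K) (s δ : ℝ) (hs : 0 ≤ s) (hδ : 0 ≤ δ) (hδ1 : δ ≤ 1)
    (U : Link D l → G) (hU : ∀ e, ‖mt (U e) * (mt (V e))ᴴ - 1‖ ≤ δ) :
    s * (trace A - (Fintype.card (Link D l) : ℝ) * n * ((n : ℝ) ^ 2 * (3 * K * δ) +
      n * (K * (Fintype.card (Link D l × Fin n) + 1) * δ))) ≤
      ∑ e, ∑ a, dlink B e a (dlink B e a (hh B V A c s)) U := by
  have hz : ∀ k, |zet B V A c U k| ≤ K * (Fintype.card (Link D l × Fin n) + 1) := by
    intro k
    unfold zet mulVec dotProduct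
    refine (abs_add_le _ _).trans ?_
    have h1 : |∑ m, A k m * yy B V U m| ≤ K * Fintype.card (Link D l × Fin n) := by
      refine (Finset.abs_sum_le_sum_abs _ _).trans ?_
      calc ∑ m, |A k m * yy B V U m| ≤ ∑ _m : Link D l × Fin n, K := by
            refine Finset.sum_le_sum fun m _ => ?_
            rw [abs_mul]
            have h2 := hAK k m
            have h3 := (yy_bound B V U m (hU m.1)).trans hδ1
            calc |A k m| * |yy B V U m| ≤ K * 1 := by gcongr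
              _ = K := mul_one _
        _ = K * Fintype.card (Link D l × Fin n) := by
            rw [Finset.sum_const, nsmul_eq_mul, Finset.card_univ, mul_comm]
    have := hcK k
    linarith
  have h1 : ∀ e a, A (e, a) (e, a) - ((n : ℝ) ^ 2 * (3 * K * δ) +
      n * (K * (Fintype.card (Link D l × Fin n) + 1) * δ)) ≤
      ∑ b, ((∑ b', A (e, b) (e, b') * ell V ((B.X b')ᴴ * B.X a) e U) *
        ell V ((B.X b)ᴴ * B.X a) e U +
        zet B V A c U (e, b) * ell V ((B.X b)ᴴ * B.X a * B.X a) e U) := by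
    intro e a
    have h2 := P1 (fun b b' => A (e, b) (e, b')) (fun b => ell V ((B.X b)ᴴ * B.X a) e U) a K δ
      hK hδ hδ1 (fun b b' => hAK _ _) (fun b => M1_bound B V U e a b (hU e))
    have h3 : |∑ b, zet B V A c U (e, b) * ell V ((B.X b)ᴴ * B.X a * B.X a) e U| ≤
        n * (K * (Fintype.card (Link D l × Fin n) + 1) * δ) := by
      refine (Finset.abs_sum_le_sum_abs _ _).trans ?_
      calc ∑ b, |zet B V A c U (e, b) * ell V ((B.X b)ᴴ * B.X a * B.X a) e U|
          ≤ ∑ _b : Fin n, K * (Fintype.card (Link D l × Fin n) + 1) * δ := by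
            refine Finset.sum_le_sum fun b _ => ?_
            rw [abs_mul]
            have h4 := hz (e, b)
            have h5 := M2_bound B V U e a b (hU e)
            gcongr
        _ = _ := by
            rw [Finset.sum_const, nsmul_eq_mul, Finset.card_univ, Fintype.card_fin]
    rw [Finset.sum_add_distrib]
    have h4 := (abs_le.1 h3).1
    linarith
  have h2 : ∑ e, ∑ a, dlink B e a (dlink B e a (hh B V A c s)) U = s * ∑ e, ∑ a,
      ∑ b, ((∑ b', A (e, b) (e, b') * ell V ((B.X b')ᴴ * B.X a) e U) *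
        ell V ((B.X b)ᴴ * B.X a) e U +
        zet B V A c U (e, b) * ell V ((B.X b)ᴴ * B.X a * B.X a) e U) := by
    rw [Finset.mul_sum]
    refine Finset.sum_congr rfl fun e _ => ?_
    rw [Finset.mul_sum]
    refine Finset.sum_congr rfl fun a _ => ?_
    rw [dlink2_hh B V A hA]
  rw [h2]
  refine mul_le_mul_of_nonneg_left ?_ hs
  have h3 : trace A - (Fintype.card (Link D l) : ℝ) * n * ((n : ℝ) ^ 2 * (3 * K * δ) +
      n * (K * (Fintype.card (Link D l × Fin n) + 1) * δ)) =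
      ∑ e : Link D l, ∑ a : Fin n, (A (e, a) (e, a) - ((n : ℝ) ^ 2 * (3 * K * δ) +
      n * (K * (Fintype.card (Link D l × Fin n) + 1) * δ))) := by
    simp only [Finset.sum_sub_distrib, Finset.sum_const, Finset.card_univ, Fintype.card_fin,
      nsmul_eq_mul]
    unfold trace diag
    rw [Fintype.sum_prod_type]
    ring
  rw [h3]
  exact Finset.sum_le_sum fun e _ => Finset.sum_le_sum fun a _ => h1 e a

/-- Upper bound of the gradient of the exponent. -/
theorem grad_upper (B : LieBasis G n) (V : Link D l → G)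
    (A : Matrix (Link D l × Fin n) (Link D l × Fin n) ℝ) (hA : ∀ k m, A k m = A m k)
    (c : Link D l × Fin n → ℝ) (s δ : ℝ) (hδ : 0 ≤ δ)
    (U : Link D l → G) (hU : ∀ e, ‖mt (U e) * (mt (V e))ᴴ - 1‖ ≤ δ) :
    ∑ e, ∑ a, dlink B e a (hh B V A c s) U ^ 2 ≤
      s ^ 2 * (1 + n * δ) ^ 2 * ∑ k, zet B V A c U k ^ 2 := by
  have h1 : ∑ e, ∑ a, dlink B e a (hh B V A c s) U ^ 2 = s ^ 2 * ∑ e, ∑ a,
      (∑ b, zet B V A c U (e, b) * ell V ((B.X b)ᴴ * B.X a) e U) ^ 2 := by
    rw [Finset.mul_sum]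
    refine Finset.sum_congr rfl fun e _ => ?_
    rw [Finset.mul_sum]
    refine Finset.sum_congr rfl fun a _ => ?_
    rw [dlink_hh B V A hA, mul_pow]
  have h2 : ∀ e, ∑ a, (∑ b, zet B V A c U (e, b) * ell V ((B.X b)ᴴ * B.X a) e U) ^ 2 ≤
      (1 + n * δ) ^ 2 * ∑ b, zet B V A c U (e, b) ^ 2 := fun e =>
    P2 (fun a b => ell V ((B.X b)ᴴ * B.X a) e U) (fun b => zet B V A c U (e, b)) δ hδ
      (fun a b => M1_bound B V U e a b (hU e))
  have h3 : ∑ e, ∑ a, (∑ b, zet B V A c U (e, b) * ell V ((B.X b)ᴴ * B.X a) e U) ^ 2 ≤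
      (1 + n * δ) ^ 2 * ∑ k, zet B V A c U k ^ 2 := by
    rw [Fintype.sum_prod_type (f := fun k => zet B V A c U k ^ 2), Finset.mul_sum]
    exact Finset.sum_le_sum fun e _ => h2 e
  rw [h1, mul_assoc]
  exact mul_le_mul_of_nonneg_left h3 (sq_nonneg _)

end

end Pool.Agent.Q174.LU
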