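import Pool.Agent.Q77.LU.StmH

/-! # Project LU (helper77), job LOCV, Taylor expansions (helper174) -/

set_option autoImplicit false

namespace Pool.Agent.Q174.LU

open Matrix Set Filter Topology
open scoped ContDiff Matrix.Norms.Frobenius
open Pool.Agent.Q77.LU

theorem lipC {E F : Type*} [NormedAddCommGroup E] [NormedSpace ℝ E] [FiniteDimensional ℝ E]
    [NormedAddCommGroup F] [NormedSpace ℝ F] (f : E → F) (hf : ContDiff ℝ ∞ f) (R : ℝ) :
    ∃ K : ℝ, 0 ≤ K ∧ (∀ x, ‖x‖ ≤ R → ‖f x‖ ≤ K) ∧ ∀ x y, ‖x‖ ≤ R → ‖y‖ ≤ R →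
      ‖f y - f x‖ ≤ K * ‖y - x‖ := by
  have hf1 : ContDiff ℝ ∞ (fderiv ℝ f) := hf.fderiv_right (by simp)
  have hproper : ProperSpace E := FiniteDimensional.proper ℝ E
  obtain ⟨K1, hK1'⟩ := (isCompact_closedBall (0 : E) R).bddAbove_image
    (f := fun x => ‖fderiv ℝ f x‖) hf1.continuous.norm.continuousOn
  obtain ⟨K0, hK0'⟩ := (isCompact_closedBall (0 : E) R).bddAbove_image
    (f := fun x => ‖f x‖) hf.continuous.norm.continuousOn
  have hK1 : ∀ x ∈ Metric.closedBall (0 : E) R, ‖fderiv ℝ f x‖ ≤ K1 :=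
    fun x hx => hK1' ⟨x, hx, rfl⟩
  have hK0 : ∀ x ∈ Metric.closedBall (0 : E) R, ‖f x‖ ≤ K0 :=
    fun x hx => hK0' ⟨x, hx, rfl⟩
  refine ⟨|K0| + |K1|, by positivity, ?_, ?_⟩
  · intro x hx
    have h1 := hK0 x (by simpa using hx)
    have h2 := le_abs_self K0
    have h3 := abs_nonneg K1
    linarith
  · intro x y hx hy
    have h1 : ‖f y - f x‖ ≤ |K1| * ‖y - x‖ := by
      refine (convex_closedBall (0 : E) R).norm_image_sub_le_of_norm_fderiv_le (𝕜 := ℝ)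
        (f := f) ?_ ?_ ?_ ?_
      · intro u _
        exact (hf.differentiable (by simp)).differentiableAt
      · intro u hu
        exact (hK1 u hu).trans (le_abs_self _)
      · simpa using hx
      · simpa using hy
    refine h1.trans ?_
    gcongr
    linarith [abs_nonneg K0]

/-- Taylor's formula of second order with a uniform constant. -/
theorem taylor2 {E F : Type*} [NormedAddCommGroup E] [NormedSpace ℝ E] [FiniteDimensional ℝ E]
    [NormedAddCommGroup F] [NormedSpace ℝ F] (f : E → F) (hf : ContDiff ℝ ∞ f) (R : ℝ) :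
    ∃ K : ℝ, 0 ≤ K ∧ (∀ x, ‖x‖ ≤ R → ‖fderiv ℝ f x‖ ≤ K) ∧ ∀ x y, ‖x‖ ≤ R → ‖y‖ ≤ R →
      ‖f y - f x - fderiv ℝ f x (y - x)‖ ≤ K * ‖y - x‖ ^ 2 := by
  have hf1 : ContDiff ℝ ∞ (fderiv ℝ f) := hf.fderiv_right (by simp)
  obtain ⟨K, hK, hK1, hK2⟩ := lipC (fderiv ℝ f) hf1 R
  refine ⟨K, hK, hK1, ?_⟩
  intro x y hx hy
  set s : Set E := Metric.closedBall 0 R ∩ Metric.closedBall x ‖y - x‖ with hs
  have hconv : Convex ℝ s := (convex_closedBall _ _).inter (convex_closedBall _ _)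
  have hder : ∀ z ∈ s, HasFDerivWithinAt (fun z => f z - fderiv ℝ f x z)
      (fderiv ℝ f z - fderiv ℝ f x) s z := by
    intro z _
    exact (((hf.differentiable (by simp)).differentiableAt (x := z)).hasFDerivAt.sub
      (fderiv ℝ f x).hasFDerivAt).hasFDerivWithinAt
  have hb : ∀ z ∈ s, ‖fderiv ℝ f z - fderiv ℝ f x‖ ≤ K * ‖y - x‖ := by
    intro z hz
    have h1 : ‖z‖ ≤ R := by simpa using hz.1
    have h2 : ‖z - x‖ ≤ ‖y - x‖ := by simpa [dist_eq_norm] using hz.2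
    exact (hK2 x z hx h1).trans (by gcongr)
  have h1 := hconv.norm_image_sub_le_of_norm_hasFDerivWithin_le hder hb
    (x := x) (y := y) ⟨by simpa using hx, by simp⟩ ⟨by simpa using hy, by simp [dist_eq_norm]⟩
  have e : f y - fderiv ℝ f x y - (f x - fderiv ℝ f x x) = f y - f x - fderiv ℝ f x (y - x) := by
    rw [map_sub]; abel
  rw [e] at h1
  calc ‖f y - f x - fderiv ℝ f x (y - x)‖ ≤ K * ‖y - x‖ * ‖y - x‖ := h1
    _ = K * ‖y - x‖ ^ 2 := by ring

theorem taylor2h {E F : Type*} [NormedAddCommGroup E] [NormedSpace ℝ E] [FiniteDimensional ℝ E]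
    [NormedAddCommGroup F] [NormedSpace ℝ F] (f : E → F) (hf : ContDiff ℝ ∞ f) (R : ℝ) :
    ∃ K : ℝ, 0 ≤ K ∧ (∀ (x : E) (f' : E →L[ℝ] F) (v : E), ‖x‖ ≤ R → HasFDerivAt f f' x →
      ‖f' v‖ ≤ K * ‖v‖) ∧
      ∀ (x y : E) (f' : E →L[ℝ] F) (w : F), ‖x‖ ≤ R → ‖y‖ ≤ R → HasFDerivAt f f' x →
      f' (y - x) = w → ‖f y - f x - w‖ ≤ K * ‖y - x‖ ^ 2 := by
  obtain ⟨K, hK, h1, h2⟩ := taylor2 f hf R
  refine ⟨K, hK, ?_, ?_⟩
  · intro x f' v hx hf'
    refine (f'.le_opNorm v).trans ?_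
    rw [← hf'.fderiv]
    have := h1 x hx
    gcongr
  · intro x y f' w hx hy hf' hw
    rw [← hw, ← hf'.fderiv]
    exact h2 x y hx hy

/-! ### matrices -/

theorem norm_sq {N : ℕ} (M : Mt N) : (trace (Mᴴ * M)).re = ‖M‖ ^ 2 := by
  have h1 : ‖M‖ ^ 2 = ∑ i, ∑ j, ‖M i j‖ ^ 2 := by
    rw [Matrix.frobenius_norm_def]
    have h0 : 0 ≤ ∑ i, ∑ j, ‖M i j‖ ^ (2 : ℝ) := by positivity
    rw [← Real.sqrt_eq_rpow, Real.sq_sqrt h0]
    simp
  rw [h1, trace, Complex.re_sum, Finset.sum_comm]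
  refine Finset.sum_congr rfl fun j _ => ?_
  rw [diag_apply, mul_apply, Complex.re_sum]
  refine Finset.sum_congr rfl fun i _ => ?_
  rw [conjTranspose_apply, ← Complex.normSq_eq_norm_sq, Complex.normSq_apply]
  simp [Complex.mul_re]

theorem re_tr_comm {N : ℕ} (A M : Mt N) : (trace (Mᴴ * A)).re = (trace (Aᴴ * M)).re := by
  have h : (Aᴴ * M)ᴴ = Mᴴ * A := by rw [conjTranspose_mul, conjTranspose_conjTranspose]
  rw [← h, trace_conjTranspose]
  simp

theorem norm_add_sq' {N : ℕ} (A M : Mt N) :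
    ‖A + M‖ ^ 2 = ‖A‖ ^ 2 + 2 * (trace (Aᴴ * M)).re + ‖M‖ ^ 2 := by
  rw [← norm_sq, ← norm_sq, ← norm_sq, conjTranspose_add, add_mul, mul_add, mul_add, trace_add,
    trace_add, trace_add, Complex.add_re, Complex.add_re, Complex.add_re, re_tr_comm A M]
  ring

/-- Cauchy-Schwarz -/
theorem re_tr_le {N : ℕ} (A M : Mt N) : |(trace (Aᴴ * M)).re| ≤ ‖A‖ * ‖M‖ := by
  rw [abs_le]
  constructor
  · have h1 := norm_add_sq' A (-M)
    have h2 := norm_add_le A (-M)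
    rw [norm_neg] at h1 h2
    have h3 : (trace (Aᴴ * -M)).re = -(trace (Aᴴ * M)).re := by
      rw [mul_neg, trace_neg, Complex.neg_re]
    rw [h3] at h1
    nlinarith [norm_nonneg (A + -M), norm_nonneg A, norm_nonneg M]
  · have h1 := norm_add_sq' A M
    have h2 := norm_add_le A M
    nlinarith [norm_nonneg (A + M), norm_nonneg A, norm_nonneg M]

/-- the norm of a unitary matrix -/
noncomputable def mm (N : ℕ) : ℝ := Real.sqrt N

theorem mm_nonneg (N : ℕ) : 0 ≤ mm N := Real.sqrt_nonneg _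

section
variable {N : ℕ} {G : Subgroup (UU N)}

theorem mt_unit (g : G) : (mt g)ᴴ * mt g = 1 := (Matrix.mem_unitaryGroup_iff').1 (g : UU N).2

theorem mt_unit' (g : G) : mt g * (mt g)ᴴ = 1 := (Matrix.mem_unitaryGroup_iff).1 (g : UU N).2

theorem mt_mul (g h : G) : mt (g * h) = mt g * mt h := rfl

theorem mt_inv (g : G) : mt g⁻¹ = (mt g)ᴴ := rfl

theorem mt_one : mt (1 : G) = 1 := rfl

theorem norm_mt (g : G) : ‖mt g‖ = mm N := by
  have h := norm_sq (mt g)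
  rw [mt_unit, trace_one] at h
  unfold mm
  rw [← Real.sqrt_sq (norm_nonneg (mt g)), ← h]
  simp

theorem norm_mt_H (g : G) : ‖(mt g)ᴴ‖ = mm N := by
  rw [Matrix.frobenius_norm_conjTranspose, norm_mt]

end

end Pool.Agent.Q174.LU
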